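import Pool.Agent.P.MP_d66c6d_pr.E.Iface
import Pool.Agent.P.MP_d66c6d_pr.F.Iface

/-! Step BLC of the carpet project. -/

namespace Pool.Agent.P.MP_d66c6d_pr

open MeasureTheory ProbabilityTheory Set Metric Filter Topology
open scoped ENNReal Pointwise

namespace BlcA

/-- The similarity as a homeomorphism. -/
noncomputable def ph {a : ℂ} (ha : a ≠ 0) (b : ℂ) : ℂ ≃ₜ ℂ :=
  (Homeomorph.mulLeft₀ a ha).trans (Homeomorph.addRight b)

variable {a : ℂ} (ha : a ≠ 0) (b : ℂ)

theorem ph_dist (x y : ℂ) : dist (ph ha b x) (ph ha b y) = ‖a‖ * dist x y := by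
  change dist (a * x + b) (a * y + b) = _
  simp [dist_eq_norm, ← mul_sub]

theorem ph_sub (A B : Set ℂ) : ph ha b '' A ⊆ ph ha b '' B ↔ A ⊆ B :=
  image_subset_image_iff (ph ha b).injective

theorem ph_ball (x : ℂ) (r : ℝ) : ball (ph ha b x) (‖a‖ * r) = ph ha b '' ball x r := by
  ext w
  obtain ⟨z, rfl⟩ := (ph ha b).surjective w
  rw [(ph ha b).injective.mem_set_image, mem_ball, mem_ball, ph_dist,
    mul_lt_mul_iff_right₀ (norm_pos_iff.2 ha)]

theorem ph_cball (x : ℂ) (r : ℝ) :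
    closedBall (ph ha b x) (‖a‖ * r) = ph ha b '' closedBall x r := by
  ext w
  obtain ⟨z, rfl⟩ := (ph ha b).surjective w
  rw [(ph ha b).injective.mem_set_image, mem_closedBall, mem_closedBall, ph_dist,
    mul_le_mul_iff_right₀ (norm_pos_iff.2 ha)]

theorem ph_thick (A : Set ℂ) (r : ℝ) :
    thickening (‖a‖ * r) (ph ha b '' A) = ph ha b '' thickening r A := by
  rw [thickening_eq_biUnion_ball, thickening_eq_biUnion_ball, biUnion_image, image_iUnion₂]
  simp only [ph_ball]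

theorem ph_fill (A : Set ℂ) : fill (ph ha b '' A) = ph ha b '' fill A := by
  ext w
  obtain ⟨z, rfl⟩ := (ph ha b).surjective w
  rw [(ph ha b).injective.mem_set_image]
  exact fill_aff ha b A z

theorem ph_diam (A : Set ℂ) : diam (ph ha b '' A) = ‖a‖ * diam A := by
  have h : ph ha b '' A = (fun z => z + b) '' (a • A) := by
    rw [← image_smul, image_image]; rfl
  rw [h, (isometry_add_right b).diam_image, diam_smul₀]

theorem ph_vol {A : Set ℂ} (hA : IsOpen A) :
    volume A = ENNReal.ofReal (‖a‖ ^ 2)⁻¹ * volume (ph ha b '' A) := by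
  have h := congrArg (fun m : Measure ℂ => m (ph ha b '' A)) (vol_map_aff ha b)
  have hm : MeasurableSet (ph ha b '' A) := ((ph ha b).isOpen_image.2 hA).measurableSet
  simp only [Measure.smul_apply, smul_eq_mul] at h
  rw [Measure.map_apply (by fun_prop) hm] at h
  rw [← h]
  congr 1
  exact ((ph ha b).injective.preimage_image A).symm

theorem ph_ins (T : Set (Set ℂ)) (U : Set ℂ) :
    ins (ph ha b '' U) (image (ph ha b) '' T) = image (ph ha b) '' ins U T := by
  ext L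
  constructor
  · rintro ⟨⟨K, hK, rfl⟩, h⟩
    exact ⟨K, ⟨hK, (ph_sub ha b _ _).1 h⟩, rfl⟩
  · rintro ⟨K, ⟨hK, h⟩, rfl⟩
    exact ⟨mem_image_of_mem _ hK, (ph_sub ha b _ _).2 h⟩

theorem ph_TT (T : Set (Set ℂ)) (ξ : ℝ) :
    TT (‖a‖ * ξ) (image (ph ha b) '' T) = ph ha b '' TT ξ T := by
  have hp := norm_pos_iff.2 ha
  unfold TT
  rw [image_sUnion]
  congr 1
  ext L
  constructor
  · rintro ⟨⟨K, hK, rfl⟩, h⟩
    rw [ph_diam, mul_le_mul_iff_right₀ hp] at h
    exact ⟨K, ⟨hK, h⟩, rfl⟩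
  · rintro ⟨K, ⟨hK, h⟩, rfl⟩
    refine ⟨mem_image_of_mem _ hK, ?_⟩
    rwa [ph_diam, mul_le_mul_iff_right₀ hp]

theorem ph_sets (S : Cfg KC) : sets (S.map (simK a b)) = image (ph ha b) '' sets S := by
  unfold sets Cfg.map
  rw [image_image, image_image]
  rfl

theorem ph_chp (M v : ℝ) (x : ℂ) (r : ℝ) (Γ : Set ℂ) :
    Chp M v (ph ha b x) (‖a‖ * r) (ph ha b '' Γ) ↔ Chp M v x r Γ := by
  have hp := norm_pos_iff.2 ha
  unfold Chp
  rw [mul_left_comm 2, mul_div_assoc, ph_cball, ph_cball, ph_ball, ph_thick, ph_sub, ph_sub,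
    (ph ha b).isCompact_image, (ph ha b).isPreconnected_image,
    ← image_inter (ph ha b).injective, image_nonempty,
    ph_vol ha b (A := thickening (r / M) Γ) isOpen_thickening]
  have h1 : ENNReal.ofReal (v * r ^ 2) =
      ENNReal.ofReal (‖a‖ ^ 2)⁻¹ * ENNReal.ofReal (v * (‖a‖ * r) ^ 2) := by
    rw [← ENNReal.ofReal_mul (by positivity)]
    congr 1
    field_simp
  rw [h1, ENNReal.mul_le_mul_iff_right (by simp [ha]) ENNReal.ofReal_ne_top]

theorem cov (n : ℕ) (M v : ℝ) (x : ℂ) (r : ℝ) (S : Cfg KC) :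
    S.map (simK a b) ∈ badL n M v (ph ha b x) (‖a‖ * r) ↔ S ∈ badL n M v x r := by
  unfold badL
  rw [mem_ofPred_eq, mem_ofPred_eq, (ph ha b).surjective.image_surjective.exists]
  refine exists_congr fun Γ => and_congr (ph_chp ha b M v x r Γ) ?_
  rw [forall_mem_image, mul_left_comm 4, mul_div_assoc, ph_ball, ph_sets ha, ph_ins, ph_TT,
    ← (ph ha b).image_closure, ph_fill]
  simp only [ph_cball, ph_sub]

end BlcA

theorem p_BLC (hBLM : S_BLM) (hPPO : S_PPO) (hMUK : S_MUK) :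
    S_BLC := by
  refine ⟨fun n M v x a b r S ha _ _ => BlcA.cov ha b n M v x r S, ?_⟩
  intro ν hν α hα n M v x r hr _
  obtain ⟨-, hσ, hsim, -⟩ := hMUK ν hν
  have hr' : ((4 * r : ℝ) : ℂ) ≠ 0 := by exact_mod_cast (by positivity : 4 * r ≠ 0)
  have hmeas : Measurable (simK ((4 * r : ℝ) : ℂ) x) := (continuous_simK _ _).measurable
  have h1 := (hPPO KC (α • muK ν) inferInstance).2.2.1 KC _ hmeas
  rw [Measure.map_smul, (hsim _ x hr').map_eq] at h1
  conv_lhs => rw [← h1]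
  rw [Measure.map_apply (measurable_cfgMap hmeas) (hBLM n M v x r hr).1]
  congr 1
  ext S
  have h2 := BlcA.cov hr' x n M v 0 (1 / 4) S
  have h3 : BlcA.ph hr' x 0 = x := by
    change _ * 0 + x = x
    simp
  have h4 : ‖((4 * r : ℝ) : ℂ)‖ * (1 / 4) = r := by
    rw [Complex.norm_real, Real.norm_of_nonneg (by positivity)]; ring
  rw [h3, h4] at h2
  exact h2

end Pool.Agent.P.MP_d66c6d_pr
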