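import Pool.Agent.P.MP_d66c6d_pr.E.Iface

/-! Step BLI of the carpet project. -/

namespace Pool.Agent.P.MP_d66c6d_pr

open MeasureTheory ProbabilityTheory Set Metric Filter Topology
open scoped ENNReal

theorem p_BLI :
    S_BLI := by
  intro M v x r S hr h
  choose Γ hΓ hf using h
  let K : ℕ → KC := fun n => ⟨⟨Γ n, (hΓ n).1⟩, (hΓ n).2.2.2.1.mono inter_subset_left⟩
  obtain ⟨L, hL, φ, hφ, hlim⟩ := (TopologicalSpace.NonemptyCompacts.isCompact_subsets_of_isCompact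
    (isCompact_closedBall x (2 * r))).tendsto_subseq (x := K) fun n => (hΓ n).2.2.1
  have hit : ∀ U, IsOpen U → ((L : Set ℂ) ∩ U).Nonempty → ∀ᶠ n in atTop, (Γ (φ n) ∩ U).Nonempty :=
    fun U hU h => hlim.eventually ((isOpen_hitK hU).mem_nhds h)
  refine ⟨L, ⟨L.isCompact, isPreconnected_closed_iff.2 fun t t' ht ht' h1 h2 h3 => ?_, hL,
    (isClosed_hitK isClosed_closedBall).mem_of_tendsto hlim
      (Eventually.of_forall fun n => (hΓ (φ n)).2.2.2.1), ?_, ?_⟩, fun y hy ξ hξ hy' => ?_⟩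
  · by_contra hn
    obtain ⟨U, V, hU, hV, h4, h5, h6⟩ := SeparatedNhds.of_isCompact_isCompact
      (L.isCompact.inter_right ht) (L.isCompact.inter_right ht')
      (disjoint_left.2 fun z a b => hn ⟨z, a.1, a.2, b.2⟩)
    have h7 : ∀ᶠ n in atTop, Γ (φ n) ⊆ U ∪ V := hlim.eventually
      ((isOpen_inK (hU.union hV)).mem_nhds fun z hz =>
        (h1 hz).imp (fun a => h4 ⟨hz, a⟩) fun a => h5 ⟨hz, a⟩)
    obtain ⟨n, a, b, c⟩ := (h7.and ((hit U hU (h2.mono fun z a => ⟨a.1, h4 a⟩)).and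
      (hit V hV (h3.mono fun z a => ⟨a.1, h5 a⟩)))).exists
    obtain ⟨z, -, d⟩ := (hΓ (φ n)).2.1 U V hU hV a b c
    exact disjoint_left.1 h6 d.1 d.2
  · intro h1
    obtain ⟨n, a⟩ := (hlim.eventually ((isOpen_inK isOpen_ball).mem_nhds h1)).exists
    exact (hΓ (φ n)).2.2.2.2.1 a
  · have h1 : thickening (r / M) (L : Set ℂ) ⊆
        ⋃ N, ⋂ n ∈ Ici N, thickening (r / M) (Γ (φ n)) := fun y hy => by
      obtain ⟨z, hz, h1⟩ := mem_thickening_iff.1 hy
      obtain ⟨N, hN⟩ := eventually_atTop.1 (hit (ball y (r / M)) isOpen_ball ⟨z, hz, mem_ball'.2 h1⟩)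
      refine mem_iUnion.2 ⟨N, mem_iInter₂.2 fun n hn => ?_⟩
      obtain ⟨w, h2, h3⟩ := hN n hn
      exact mem_thickening_iff.2 ⟨w, h2, mem_ball'.1 h3⟩
    refine (measure_mono h1).trans ?_
    rw [Monotone.measure_iUnion fun _ _ h => biInter_subset_biInter_left (Ici_subset_Ici.2 h)]
    exact iSup_le fun N => (measure_mono (biInter_subset_of_mem self_mem_Ici)).trans
      (hΓ (φ N)).2.2.2.2.2
  · obtain ⟨s, hs, h1⟩ := Metric.mem_nhds_iff.1 (mem_interior_iff_mem_nhds.1 hy')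
    have h2 : Tendsto (fun n => r / ((φ n : ℝ) + 1)) atTop (𝓝 0) :=
      (tendsto_const_div_atTop_nhds_zero_nat r).comp
        ((tendsto_add_atTop_nat 1).comp hφ.tendsto_atTop) |>.congr fun n => by simp
    obtain ⟨n, ⟨w, a, b⟩, c, d⟩ := ((hit (ball y (s / 2)) isOpen_ball
      ⟨y, hy, mem_ball_self (half_pos hs)⟩).and ((h2.eventually (ge_mem_nhds hξ)).and
        (h2.eventually (ge_mem_nhds (half_pos hs))))).exists
    refine hf (φ n) w a fun z hz => fill_mono (closure_mono (TT_mono c Subset.rfl)) (h1 ?_)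
    rw [mem_closedBall] at hz
    rw [mem_ball] at b ⊢
    linarith [dist_triangle z w y]

end Pool.Agent.P.MP_d66c6d_pr
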