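import Pool.Agent.P.MP_d66c6d_pr.E.Iface

/-! Step BLM of the carpet project. -/

namespace Pool.Agent.P.MP_d66c6d_pr

open MeasureTheory ProbabilityTheory Set Metric Filter Topology
open scoped ENNReal

namespace BlmA

/-- The union of the loops of the class `A`. -/
def U (A : Set KC) (S : Cfg KC) : Set ℂ := ⋃ K ∈ S.pts ∩ A, (K : Set ℂ)

theorem TT_eq (ξ : ℝ) (V : Set ℂ) (S : Cfg KC) :
    TT ξ (ins V (sets S)) = U (inK V ∩ bigK ξ) S := by
  refine Subset.antisymm ?_ (iUnion₂_subset fun K hK => ?_)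
  · rintro z ⟨_, ⟨⟨⟨K, h1, rfl⟩, h2⟩, h3⟩, hz⟩
    exact mem_biUnion (x := K) ⟨h1, h2, h3⟩ hz
  · exact subset_sUnion_of_mem (t := (K : Set ℂ)) ⟨⟨⟨K, hK.1, rfl⟩, hK.2.1⟩, hK.2.2⟩

theorem meas_hit {A : Set KC} (hA : MeasurableSet A) {O : Set ℂ} (hO : IsOpen O) :
    MeasurableSet {S | (U A S ∩ O).Nonempty} := by
  refine (measurableSet_hit (hA.inter (isOpen_hitK hO).measurableSet)).congr (Set.ext fun S => ?_)
  constructor
  · rintro ⟨K, h1, h2, z, h3, h4⟩
    exact ⟨z, mem_biUnion (x := K) ⟨h1, h2⟩ h3, h4⟩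
  · rintro ⟨z, h1, h2⟩
    obtain ⟨K, h3, h4⟩ := mem_iUnion₂.1 h1
    exact ⟨K, h3.1, h3.2, z, h4, h2⟩

theorem meas {A : Set KC} (hA : MeasurableSet A) {V : Set ℂ} (hV : Bornology.IsBounded V)
    (hAV : A ⊆ inK V) (P : Set ℂ → Prop) (hP : IsOpen {K : KC | P K}) :
    MeasurableSet {S | P (closure (U A S))} := by
  classical
  have hc : ∀ S, IsCompact (closure (U A S)) := fun S =>
    (hV.subset (iUnion₂_subset fun K hK => hAV hK.2)).isCompact_closure
  have hN : MeasurableSet {S | (U A S).Nonempty} := by simpa using meas_hit hA isOpen_univ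
  let Φ : Cfg KC → KC := fun S =>
    if h : (U A S).Nonempty then ⟨⟨closure (U A S), hc S⟩, h.closure⟩ else {0}
  have h1 : ∀ S, (U A S).Nonempty → (Φ S : Set ℂ) = closure (U A S) := fun S h => by
    simp only [Φ, dif_pos h]; rfl
  have hΦ : Measurable Φ := measurable_KC fun O hO => by
    refine ((meas_hit hA hO).union (hN.compl.inter (MeasurableSet.const
      (((({0} : KC) : Set ℂ) ∩ O).Nonempty)))).congr (Set.ext fun S => ?_)
    by_cases h : (U A S).Nonempty
    · simp [h, h1 S h, closure_inter_open_nonempty_iff hO]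
    · simp [Φ, not_nonempty_iff_eq_empty.1 h]
  refine ((hN.inter (hΦ hP.measurableSet)).union
    (hN.compl.inter (MeasurableSet.const (P ∅)))).congr (Set.ext fun S => ?_)
  by_cases h : (U A S).Nonempty
  · simp [h, h1 S h]
  · simp [not_nonempty_iff_eq_empty.1 h]

theorem isOpen_out {Γ : Set ℂ} (hΓ : IsCompact Γ) (ξ : ℝ) :
    IsOpen {K : KC | ∀ y ∈ Γ, ¬ closedBall y ξ ⊆ fill (K : Set ℂ)} := by
  refine isOpen_iff_mem_nhds.2 fun K hK => hΓ.eventually_forall_of_forall_eventually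
    (P := fun (K : KC) y => ¬ closedBall y ξ ⊆ fill (K : Set ℂ)) fun y hy => ?_
  obtain ⟨w, h1, h2⟩ := not_subset.1 (hK y hy)
  have hc : Continuous fun q : KC × ℂ => (w - y + q.2, q.1) := by fun_prop
  refine mem_of_superset ((isClosed_fillK.preimage hc).isOpen_compl.mem_nhds (by simpa using h2))
    fun q hq h => hq (h ?_)
  rwa [mem_closedBall, dist_eq_norm, add_sub_cancel_right, ← dist_eq_norm]

end BlmA

open BlmA in
theorem p_BLM :
    S_BLM := by
  intro n M v x r hr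
  refine ⟨?_, fun S T h hS => ?_, ?_⟩
  · simp only [badL, TT_eq]
    refine meas ((isOpen_inK isOpen_ball).measurableSet.inter (measurableSet_bigK _))
      isBounded_ball inter_subset_left
      (fun F => ∃ Γ, Chp M v x r Γ ∧ ∀ y ∈ Γ, ¬ closedBall y (r / (n + 1)) ⊆ fill F) ?_
    refine isOpen_iff_mem_nhds.2 fun K ⟨Γ, h1, h2⟩ => ?_
    exact mem_of_superset ((isOpen_out h1.1 _).mem_nhds h2) fun L hL => ⟨Γ, h1, hL⟩
  · simp only [badL, TT_eq, U, mem_ofPred_eq] at hS ⊢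
    rwa [← h]
  · rintro S ⟨Γ, h1, h2⟩
    have : r / (((n + 1 : ℕ) : ℝ) + 1) ≤ r / (n + 1) := by
      gcongr; exact Nat.le_succ n
    exact ⟨Γ, h1, fun y hy h => h2 y hy ((closedBall_subset_closedBall this).trans
      (h.trans (fill_mono (closure_mono (TT_mono this Subset.rfl)))))⟩

end Pool.Agent.P.MP_d66c6d_pr
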