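import Pool.Agent.P.MP_d66c6d_pr.E.Iface

/-! Step BUMP of the carpet project. -/

namespace Pool.Agent.P.MP_d66c6d_pr

open MeasureTheory ProbabilityTheory Set Metric Filter Topology
open scoped ENNReal

theorem p_BUMP :
    S_BUMP := by
  intro Γ c x r hΓ hc hx hxc hn
  have hY : IsCompact (Γ ∩ closedBall c r) := hΓ.inter_right isClosed_closedBall
  have := isCompact_iff_compactSpace.1 hY
  let y : ↥(Γ ∩ closedBall c r) := ⟨x, hx, hxc⟩
  refine ⟨Subtype.val '' connectedComponent y, Subtype.coe_image_subset _ _,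
    isClosed_connectedComponent.isCompact.image continuous_subtype_val,
    isPreconnected_connectedComponent.image _ continuous_subtype_val.continuousOn,
    ⟨y, mem_connectedComponent, rfl⟩, fun h => ?_⟩
  have h1 : IsCompact (Subtype.val ⁻¹' (ball c r)ᶜ : Set ↥(Γ ∩ closedBall c r)) :=
    (isOpen_ball.isClosed_compl.preimage continuous_subtype_val).isCompact
  obtain ⟨t, ht⟩ := h1.elim_finite_subfamily_closed
    (fun s : {s : Set ↥(Γ ∩ closedBall c r) // IsClopen s ∧ y ∈ s} => (s : Set _))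
    (fun s => s.2.1.1) (by
      rw [← connectedComponent_eq_iInter_isClopen]
      exact eq_empty_of_forall_notMem fun z hz => hz.1 (h ⟨z, hz.2, rfl⟩))
  set Z := ⋂ s ∈ t, (s : Set ↥(Γ ∩ closedBall c r)) with hZ
  have z1 : IsClopen Z := isClopen_biInter_finset fun s _ => s.2.1
  have z2 : y ∈ Z := mem_iInter₂.2 fun s _ => s.2.2
  have z3 : ∀ z ∈ Z, (z : ℂ) ∈ ball c r := fun z hz => by_contra fun h =>
    (eq_empty_iff_forall_notMem.1 ht z) ⟨h, hz⟩
  obtain ⟨w, hw, hw'⟩ := not_subset.1 hn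
  obtain ⟨u, -, ⟨z, hz, rfl⟩, hu⟩ := isPreconnected_closed_iff.1 hc (Subtype.val '' Z)
    (Subtype.val '' Zᶜ ∪ (ball c r)ᶜ)
    (z1.1.isCompact.image continuous_subtype_val).isClosed
    ((z1.compl.1.isCompact.image continuous_subtype_val).isClosed.union
      isOpen_ball.isClosed_compl)
    (fun u hu => by
      by_cases hb : u ∈ ball c r
      · by_cases hz : (⟨u, hu, ball_subset_closedBall hb⟩ : ↥(Γ ∩ closedBall c r)) ∈ Z
        · exact Or.inl ⟨_, hz, rfl⟩
        · exact Or.inr (Or.inl ⟨_, hz, rfl⟩)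
      · exact Or.inr (Or.inr hb))
    ⟨x, hx, y, z2, rfl⟩ ⟨w, hw, Or.inr hw'⟩
  rcases hu with ⟨z', hz', e⟩ | hu
  · exact hz' (Subtype.ext e ▸ hz)
  · exact hu (z3 z hz)

end Pool.Agent.P.MP_d66c6d_pr
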