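import Pool.Agent.P.MP_d66c6d_pr.S.Iface3
import Pool.Agent.P.MP_d66c6d_pr.A.Iface
import Pool.Agent.P.MP_d66c6d_pr.N.Cik

/-!
Left continuity: the set left by the finite chains, and the local bad events.
-/

namespace Pool.Agent.P.MP_d66c6d_pr

open MeasureTheory ProbabilityTheory Set Metric Filter Topology
open scoped ENNReal

/-- The points that are not surrounded by finitely many members of `T`. -/
def Fr (T : Set (Set ℂ)) : Set ℂ :=
  {y | ∀ ξ > (0 : ℝ), y ∉ interior (fill (closure (TT ξ T)))}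

/-- A continuum that crosses the annulus of radii `r, 2 r` and has a small neighbourhood. -/
def Chp (M v : ℝ) (x : ℂ) (r : ℝ) (Γ : Set ℂ) : Prop :=
  IsCompact Γ ∧ IsPreconnected Γ ∧ Γ ⊆ closedBall x (2 * r) ∧ (Γ ∩ closedBall x r).Nonempty ∧
    ¬ Γ ⊆ ball x (2 * r) ∧ volume (thickening (r / M) Γ) ≤ ENNReal.ofReal (v * r ^ 2)

/-- A cheap crossing that is nowhere deep inside the filling of the big local loops. -/
def badL (n : ℕ) (M v : ℝ) (x : ℂ) (r : ℝ) : Set (Cfg KC) :=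
  {S | ∃ Γ, Chp M v x r Γ ∧ ∀ y ∈ Γ, ¬ closedBall y (r / (n + 1)) ⊆
    fill (closure (TT (r / (n + 1)) (ins (ball x (4 * r)) (sets S))))}

theorem Fr_anti {T T' : Set (Set ℂ)} (h : T ⊆ T') : Fr T' ⊆ Fr T := fun _ hy ξ hξ hy' =>
  hy ξ hξ (interior_mono (fill_mono (closure_mono (TT_mono le_rfl h))) hy')

theorem ins_mono {V V' : Set ℂ} {T T' : Set (Set ℂ)} (hV : V ⊆ V') (h : T ⊆ T') :
    ins V T ⊆ ins V' T' := fun _ hK => ⟨h hK.1, hK.2.trans hV⟩

theorem Tame.isCompact_TT {T : Set (Set ℂ)} (h : Tame T) {ξ : ℝ} (hξ : 0 < ξ) :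
    IsCompact (TT ξ T) := by
  rw [TT, sUnion_eq_biUnion]
  exact (h.2 ξ hξ).isCompact_biUnion fun K hK => (h.1 K hK.1).1

/-- A map to the space of traces is measurable when the events of meeting a disc are. -/
theorem measurable_KC {α : Type*} [MeasurableSpace α] {f : α → KC}
    (h : ∀ O : Set ℂ, IsOpen O → MeasurableSet {a | ((f a : Set ℂ) ∩ O).Nonempty}) :
    Measurable f :=
  CikA.emb_code.measurable_comp_iff.1
    (measurable_pi_lambda _ fun i => (h _ (isOpen_rb i)).mem)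

end Pool.Agent.P.MP_d66c6d_pr
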