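import Pool.Agent.P.MP_d66c6d_pr.E.Iface
import Pool.Agent.P.MP_d66c6d_pr.T.Iface
import Pool.Agent.P.MP_d66c6d_pr.S.Covr

/-! Step DJL of the carpet project. -/

namespace Pool.Agent.P.MP_d66c6d_pr

open MeasureTheory ProbabilityTheory Set Metric Filter Topology
open scoped ENNReal

namespace DjlA

/-- A path that circles around a point of the closure of a connected set meets the set soon. -/
theorem touch (hFILL : S_FILL) {γ : Br} {σ : unitInterval} (hγ : Circ γ σ) {C : Set ℂ}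
    (hC : IsPreconnected C) (h0 : 0 < diam C) (hx : γ σ ∈ closure C) {ε : ℝ} (hε : 0 < ε) :
    ∃ u : unitInterval, (σ : ℝ) < u ∧ (u : ℝ) < σ + ε ∧ γ u ∈ C := by
  obtain ⟨δ, hδ, hc⟩ := Metric.continuousAt_iff.1 (γ.continuous.continuousAt (x := σ))
    (diam C / 4) (by positivity)
  obtain ⟨s, t, hs, -, ht, hi⟩ := hγ (min δ ε) (lt_min hδ hε)
  have hp : IsCompact (piece γ s t) :=
    ((isClosed_le continuous_const continuous_subtype_val).inter
      (isClosed_le continuous_subtype_val continuous_const)).isCompact.image γ.continuous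
  have hb : piece γ s t ⊆ closedBall (γ σ) (diam C / 4) := by
    rintro _ ⟨u, hu, rfl⟩
    refine (hc ?_).le
    rw [Subtype.dist_eq, Real.dist_eq, abs_of_nonneg (by linarith [hu.1])]
    linarith [hu.2, min_le_left δ ε]
  by_contra hn
  have hd : Disjoint C (piece γ s t) := by
    refine Set.disjoint_left.2 ?_
    rintro _ hy ⟨u, hu, rfl⟩
    exact hn ⟨u, hs.trans_le hu.1, by linarith [hu.2, min_le_right δ ε], hy⟩
  obtain ⟨-, -, -, -, -, f6, -, -, f9⟩ := hFILL _ hp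
  rcases f9 C hC hd with h | h
  · have := diam_le_of_subset_closedBall (by positivity)
      (h.trans (interior_subset.trans (f6 _ (convex_closedBall _ _) hb)))
    linarith
  · obtain ⟨y, h1, h2⟩ := _root_.mem_closure_iff.1 hx _ isOpen_interior hi
    exact h h2 (interior_subset h1)

theorem join_le (γ : Br) {G : Set ℂ} {s t : unitInterval} (h : s ≤ t)
    (hG : ∀ u, s ≤ u → u ≤ t → γ u ∈ G) : JoinedIn G (γ s) (γ t) := by
  obtain ⟨β, h0, h1, h2⟩ := exists_br_piece γ h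
  refine joinedIn_iff_br.2 ⟨β, h0, h1, ?_⟩
  rw [h2]
  rintro _ ⟨u, hu, rfl⟩
  exact hG u hu.1 hu.2

theorem join_near (γ : Br) {G : Set ℂ} {τ u : unitInterval} {ε : ℝ}
    (hG : ∀ v : unitInterval, (τ : ℝ) - ε < v → (v : ℝ) < τ + ε → γ v ∈ G)
    (h1 : (τ : ℝ) - ε < u) (h2 : (u : ℝ) < τ + ε) : JoinedIn G (γ τ) (γ u) := by
  rcases le_total τ u with h | h
  · refine join_le γ h fun v a b => ?_
    have a' : (τ : ℝ) ≤ v := a
    have b' : (v : ℝ) ≤ u := b
    have h' : (τ : ℝ) ≤ u := h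
    exact hG v (by linarith) (by linarith)
  · refine (join_le γ h fun v a b => ?_).symm
    have a' : (u : ℝ) ≤ v := a
    have b' : (v : ℝ) ≤ τ := b
    have h' : (u : ℝ) ≤ τ := h
    exact hG v (by linarith) (by linarith)

/-- A loop that touches the closure of a connected set meets the set near the contact point. -/
theorem meet (hFILL : S_FILL) {γ : Br} (h01 : γ 0 = γ 1) {C : Set ℂ} (hq : HitQ γ (closure C))
    (hC : IsPreconnected C) (h0 : 0 < diam C) {x : ℂ} (hx : x ∈ range γ) (hxC : x ∈ closure C)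
    {O : Set ℂ} (hO : IsOpen O) (hxO : x ∈ O) : ∃ w ∈ C, JoinedIn (range γ ∩ O) x w := by
  obtain ⟨τ, hτ, rfl⟩ : ∃ τ : unitInterval, (τ : ℝ) < 1 ∧ γ τ = x := by
    obtain ⟨τ, rfl⟩ := hx
    rcases τ.2.2.lt_or_eq with h | h
    · exact ⟨τ, h, rfl⟩
    · exact ⟨0, by simp, by rw [h01, show τ = 1 from Subtype.ext h]⟩
  obtain ⟨ε, hε, hb⟩ := Metric.isOpen_iff.1 (hO.preimage γ.continuous) τ hxO
  have hG : ∀ v : unitInterval, (τ : ℝ) - ε < v → (v : ℝ) < τ + ε → γ v ∈ range γ ∩ O :=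
    fun v a b => ⟨mem_range_self v, hb (by
      rw [mem_ball, Subtype.dist_eq, Real.dist_eq, abs_lt]
      constructor <;> linarith)⟩
  obtain ⟨q, q0, q1, q2⟩ : ∃ q : ℚ, 0 ≤ q ∧ (q : ℝ) ≤ τ ∧ (τ : ℝ) - ε < q := by
    rcases τ.2.1.lt_or_eq with h | h
    · obtain ⟨q, a, b⟩ := exists_rat_btwn (show max 0 ((τ : ℝ) - ε) < τ from
        max_lt h (by linarith))
      exact ⟨q, by exact_mod_cast ((le_max_left _ _).trans a.le), b.le,
        (le_max_right _ _).trans_lt a⟩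
    · exact ⟨0, le_rfl, by simpa using h.le, by rw [← h]; simpa using hε⟩
  have hcl : IsCompact {u : unitInterval | (q : ℝ) ≤ u ∧ γ u ∈ closure C} :=
    ((isClosed_le continuous_const continuous_subtype_val).inter
      (isClosed_closure.preimage γ.continuous)).isCompact
  obtain ⟨σ, ⟨s1, s2⟩, s3⟩ := hcl.exists_isLeast ⟨τ, q1, hxC⟩
  have s4 : (σ : ℝ) ≤ τ := s3 ⟨q1, hxC⟩
  have hc : Circ γ σ := hq q σ s1 (s4.trans_lt hτ) q0 s2
    fun u a b c => absurd b (not_lt.2 (s3 ⟨a, c⟩))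
  obtain ⟨u, u1, u2, u3⟩ := touch hFILL hc hC h0 s2 hε
  exact ⟨γ u, u3, join_near γ hG (by linarith) (by linarith)⟩

end DjlA

open CovrA in
theorem p_DJL (hFILL : S_FILL) :
    S_DJL := by
  intro V T c₀ c₁ h q B hB hBV
  have h01 : T c₀ ⊆ T c₁ := h.mono c₀ c₁ le_rfl h.lt.le le_rfl
  have hBo : IsOpen B := hB ▸ isOpen_ball
  have hBb : Bornology.IsBounded B := hB ▸ isBounded_ball
  have hpre : ∀ K ∈ ins B (T c₀), IsPreconnected (cluster (ins B (T c₀)) K) := fun K hK =>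
    isPreconnected_cluster (fun A hA => (h.tame.1 A (h01 hA.1)).2.1.isConnected.isPreconnected) hK
      (h.tame.1 K (h01 hK.1)).2.1.nonempty
  have hbd : ∀ K ∈ ins B (T c₀), Bornology.IsBounded (cluster (ins B (T c₀)) K) := fun K hK =>
    hBb.subset (sUnion_subset fun A hA => (Lk.mem hK hA).2)
  have hdi : ∀ K ∈ ins B (T c₀), 0 < diam (cluster (ins B (T c₀)) K) := fun K hK =>
    (h.tame.1 K (h01 hK.1)).2.2.trans_le (diam_mono (sub_cl .refl) (hbd K hK))
  intro K hK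
  refine ⟨fun K' hK' => ?_, fun M hM hMB x hx hxC O hO hxO => ?_⟩
  · refine or_iff_not_imp_left.2 fun hn => ?_
    obtain ⟨γ, hγ, -, hq, -⟩ := h.hit K hK.1
    have hc : Circ γ 0 := hq 0 0 (by simp) (by simp) le_rfl (mem_univ _)
      fun u _ hu => absurd hu (not_lt.2 u.2.1)
    have hx : γ 0 ∉ closure (cluster (ins B (T c₀)) K') := by
      refine not_mem_closure hFILL hc (hpre K' hK') (Set.disjoint_left.2 fun y h1 h2 => ?_)
        (hdi K' hK')
      exact hn (cl_meet hK hK' (sub_cl .refl (hγ ▸ h2)) h1)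
    have hxK : γ 0 ∈ K := hγ ▸ mem_range_self 0
    obtain ⟨q', hq0, hxD, hD⟩ := exists_disc (hBo.sdiff isClosed_closure) ⟨hK.2 hxK, hx⟩
    obtain ⟨e1, e2⟩ := h.exl q q' hq0 (hB ▸ hBV) (hB ▸ hD.trans sdiff_subset)
    rw [← hB] at e1 e2
    generalize closedBall (qp q') (q'.2.2 : ℝ) = D at hxD hD e1 e2
    generalize ins B (T c₀) = S at *
    have hA : ∀ A ∈ S, Lk S K' A → Disjoint A (D ∪ closure (clD S D)) := by
      intro A hA hl
      by_contra hc
      obtain ⟨y, hy, hy'⟩ := e1 A hA (not_disjoint_iff_nonempty_inter.1 hc)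
      rcases hy' with hy' | hy'
      · exact (hD hy').2 (subset_closure (sub_cl hl hy))
      · obtain ⟨M, ⟨hM, z, z1, z2⟩, hyM⟩ := mem_iUnion₂.1 hy'
        refine (hD z2).2 (subset_closure ?_)
        rw [← cl_meet hM hK' hyM (sub_cl hl hy)]
        exact sub_cl .refl z1
    have h1 := cl_sub (S' := {B ∈ S | Disjoint B (D ∪ closure (clD S D))})
      fun A h1 h2 => ⟨h1, hA A h1 h2⟩
    refine ((e2 K' hK' (hA K' hK' .refl)).mono (closure_mono h1) ?_).symm
    refine (closure_mono ?_).trans subset_union_right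
    exact subset_biUnion_of_mem (u := fun K => cluster S K) ⟨hK, γ 0, hxK, hxD⟩
  · obtain ⟨γ, hγ, h1, -, hq⟩ := h.hit M hM
    have hq' := hq q (hB ▸ hMB) K (hB ▸ hK)
    rw [← hB] at hq'
    subst hγ
    exact DjlA.meet hFILL h1 hq' (hpre K hK) (hdi K hK) hx hxC hO hxO

end Pool.Agent.P.MP_d66c6d_pr
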