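import Pool.Agent.P.MP_d66c6d_pr.E.Iface
import Pool.Agent.P.MP_d66c6d_pr.T.Iface
import Pool.Agent.P.MP_d66c6d_pr.C.Iface
import Pool.Agent.P.MP_56bcbf_an.Koebe

/-! Step FIMG of the carpet project. -/

namespace Pool.Agent.P.MP_d66c6d_pr

open MeasureTheory ProbabilityTheory Set Metric Filter Topology
open scoped ENNReal

namespace FimgA

variable {V : Set ℂ} {f g : ℂ → ℂ}

theorem open_image (h : Conf V f g) {O : Set ℂ} (hO : IsOpen O) (hV : O ⊆ V) :
    IsOpen (f '' O) := by
  have : f '' O = ball 0 1 ∩ g ⁻¹' O := by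
    ext w
    constructor
    · rintro ⟨z, hz, rfl⟩
      exact ⟨h.mapsf (hV hz), by rwa [mem_preimage, h.left z (hV hz)]⟩
    · exact fun hw => ⟨g w, hw.2, h.right w hw.1⟩
  rw [this]
  exact h.cg.isOpen_inter_preimage isOpen_ball hO

theorem img (hFILL : S_FILL) (h : Conf V f g) (hN : NoHole V) {A : Set ℂ} (hA : A ⊆ V)
    (hc : IsCompact A) : f '' interior (fill A) ⊆ interior (fill (f '' A)) := by
  have h1 := hN A hc hA
  have h2 := open_image h isOpen_interior (interior_subset.trans h1)
  have h3 : IsCompact (f '' fill A) :=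
    (hFILL A hc).1.image_of_continuousOn (h.diff.continuousOn.mono h1)
  refine interior_maximal (fun w hw => ?_) h2
  by_cases hw' : w ∈ f '' A
  · exact subset_fill _ hw'
  have h4 : connectedComponentIn (f '' A)ᶜ w ⊆ f '' interior (fill A) := by
    refine isPreconnected_connectedComponentIn.subset_of_closure_inter_subset h2
      ⟨w, mem_connectedComponentIn hw', hw⟩ fun u hu => ?_
    obtain ⟨z, hz, rfl⟩ := closure_minimal (image_mono interior_subset) h3.isClosed hu.1
    refine mem_image_of_mem f (by_contra fun hn => ?_)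
    exact connectedComponentIn_subset _ _ hu.2
      (mem_image_of_mem f ((hFILL A hc).2.2.2.1 ⟨subset_closure hz, hn⟩))
  exact h3.isBounded.subset (h4.trans (image_mono interior_subset))

theorem diff (hCONF : S_CONF) (h : Conf V f g) : DifferentiableOn ℂ g (ball 0 1) := by
  intro w hw
  have h1 : deriv f (g w) ≠ 0 := fun h0 => by
    have := (hCONF V f g h).2.1 _ (h.mapsg hw)
    simp [jac, h0] at this
  have h2 := (h.diff.differentiableAt (h.op.mem_nhds (h.mapsg hw))).hasDerivAt
  exact (HasDerivAt.of_local_left_inverse (h.cg.continuousAt (isOpen_ball.mem_nhds hw)) h2 h1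
    (mem_of_superset (isOpen_ball.mem_nhds hw) h.right)).differentiableAt.differentiableWithinAt

end FimgA

open FimgA in
theorem p_FIMG (hFILL : S_FILL) (hCONF : S_CONF) :
    S_FIMG := by
  intro V f g h
  have hd := diff hCONF h
  refine ⟨fun hN A hA hc => img hFILL h hN hA hc, hd, ?_⟩
  have s1 : closedBall (0 : ℂ) (3 / 4) ⊆ ball 0 1 := closedBall_subset_ball (by norm_num)
  have s2 : closedBall (0 : ℂ) (1 / 4) ⊆ ball 0 1 := closedBall_subset_ball (by norm_num)
  have s3 : sphere (0 : ℂ) (1 / 2) ⊆ ball 0 1 :=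
    sphere_subset_closedBall.trans (closedBall_subset_ball (by norm_num))
  obtain ⟨C, hC⟩ := (isCompact_closedBall (0 : ℂ) (3 / 4)).exists_bound_of_continuousOn
    ((hd.deriv isOpen_ball).continuousOn.mono s1)
  obtain ⟨p, hp, hm⟩ := ((isCompact_closedBall (0 : ℂ) (1 / 4)).prod
    (isCompact_sphere (0 : ℂ) (1 / 2))).exists_isMinOn
    ⟨(0, 1 / 2), by simp, by simp⟩ (f := fun p : ℂ × ℂ => dist (g p.1) (g p.2))
    (continuous_dist.comp_continuousOn ((h.cg.comp continuousOn_fst fun p hp => s2 hp.1).prodMk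
      (h.cg.comp continuousOn_snd fun p hp => s3 hp.2)))
  refine ⟨max C 1, dist (g p.1) (g p.2), by positivity, dist_pos.2 fun e => ?_,
    fun x hx y hy => ?_, fun x hx y hy => hm (mk_mem_prod hx hy)⟩
  · have e2 : p.1 = p.2 := by rw [← h.right _ (s2 hp.1), e, h.right _ (s3 hp.2)]
    have a := mem_closedBall.1 hp.1
    have b := mem_sphere.1 hp.2
    rw [e2, b] at a
    norm_num at a
  · rw [dist_eq_norm, dist_eq_norm]
    exact Convex.norm_image_sub_le_of_norm_deriv_le
      (fun z hz => hd.differentiableAt (isOpen_ball.mem_nhds (s1 hz)))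
      (fun z hz => (hC z hz).trans (le_max_left _ _)) (convex_closedBall _ _) hy hx

end Pool.Agent.P.MP_d66c6d_pr
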