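import Pool.Agent.P.MP_d66c6d_pr.E.Iface
import Pool.Agent.P.MP_d66c6d_pr.S.Iface2
import Pool.Agent.P.MP_d66c6d_pr.T.Iface
import Pool.Agent.P.MP_d66c6d_pr.S.Covr

/-! Step FRA of the carpet project. -/

namespace Pool.Agent.P.MP_d66c6d_pr

open MeasureTheory ProbabilityTheory Set Metric Filter Topology
open scoped ENNReal

namespace FraA

theorem two (hFILL : S_FILL) (hEIL : S_EIL) {A B : Set ℂ} (hA : IsCompact A) (hB : IsCompact B)
    (hd : Disjoint A B) : fill (A ∪ B) ⊆ fill A ∪ fill B := fun w hw => by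
  by_contra hn
  obtain ⟨R, hR0, hR⟩ := (hA.union hB).isBounded.subset_ball_lt 0 0
  have hb : ∀ C ⊆ A ∪ B, (R : ℂ) ∉ fill C := fun C hC h => by
    simpa [abs_of_pos hR0] using fill_subset_ball hR0 (hC.trans hR) h
  have j := hEIL.2.2 A B hA hB (hd.inter_eq ▸ isPreconnected_empty) w R
    (((hFILL A hA).2.2.2.2.2.2.2.1 w (fun h => hn (Or.inl h)) R (hb A subset_union_left)).mono
      (compl_subset_compl.2 (subset_fill A)))
    (((hFILL B hB).2.2.2.2.2.2.2.1 w (fun h => hn (Or.inr h)) R (hb B subset_union_right)).mono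
      (compl_subset_compl.2 (subset_fill B)))
  exact hb _ Subset.rfl (fill_conn (isPreconnected_range j.somePath.continuous)
    (disjoint_left.2 fun _ ⟨t, ht⟩ h => j.somePath_mem t (ht ▸ h)) ⟨0, j.somePath.source⟩
    ⟨1, j.somePath.target⟩ hw)

theorem many (hFILL : S_FILL) (hEIL : S_EIL) {G : Set (Set ℂ)} (hG : G.Finite)
    (hc : ∀ A ∈ G, IsCompact A) (hd : G.Pairwise Disjoint) : fill (⋃₀ G) ⊆ ⋃₀ (fill '' G) := by
  induction G, hG using Set.Finite.induction_on with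
  | empty =>
    exact fun w hw => absurd hw (not_mem_fill isPreconnected_univ (by simp) (mem_univ w)
      (NormedSpace.unbounded_univ ℝ ℂ))
  | @insert A G hA hG ih =>
    have h1 : ∀ B ∈ G, IsCompact B := fun B hB => hc B (Or.inr hB)
    rw [sUnion_insert, image_insert_eq, sUnion_insert]
    refine (two hFILL hEIL (hc A (Or.inl rfl)) (hG.isCompact_sUnion h1)
      (disjoint_sUnion_right.2 fun B hB => hd (Or.inl rfl) (Or.inr hB) fun e => hA (e ▸ hB))).trans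
      (union_subset_union_right _ (ih h1 (hd.mono (subset_insert _ _))))

theorem loc {G : Set (Set ℂ)} (hG : G.Finite) (hc : ∀ A ∈ G, IsClosed A)
    (hn : ∀ A ∈ G, ∀ B ∈ G, Disjoint A B ∨ A ⊆ B ∨ B ⊆ A) {z : ℂ} (hz : z ∈ interior (⋃₀ G)) :
    ∃ F ∈ G, z ∈ interior F := by
  obtain ⟨A, hA, hzA⟩ := interior_subset hz
  obtain ⟨M, hM⟩ := (hG.sep fun F => z ∈ F).exists_maximal ⟨A, hA, hzA⟩
  have h1 : IsClosed (⋃ F ∈ {F ∈ G | z ∉ F}, F) :=
    (hG.sep _).isClosed_biUnion fun F hF => hc F hF.1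
  refine ⟨M, hM.1.1, mem_interior_iff_mem_nhds.2 (mem_of_superset (inter_mem
    (mem_interior_iff_mem_nhds.1 hz) (h1.isOpen_compl.mem_nhds (by simp))) ?_)⟩
  rintro y ⟨⟨F, hF, hy⟩, h2⟩
  have h3 : z ∈ F := by_contra fun h => h2 (mem_biUnion ⟨hF, h⟩ hy)
  rcases hn F hF M hM.1.1 with e | e | e
  · exact absurd hM.1.2 (disjoint_left.1 e h3)
  · exact e hy
  · exact hM.2 ⟨hF, h3⟩ e hy

end FraA

open CovrA in
theorem p_FRA (hCOVR : S_COVR) (hFILL : S_FILL) (hEIL : S_EIL) :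
    S_FRA := by
  intro V T c₀ c₁ hV hVb h z ⟨hz, hzV⟩ ξ hξ hi
  obtain ⟨p1, -, -, p4, -⟩ := hCOVR V T c₀ c₁ hV hVb h
  have h01 : T c₀ ⊆ T c₁ := h.mono c₀ c₁ le_rfl h.lt.le le_rfl
  have hsub : ∀ K ∈ T c₀, K ⊆ V := fun K hK => h.sub K (h01 hK)
  have hins : {K ∈ T c₀ | K ⊆ V} = T c₀ := sep_eq_self_iff_mem_true.2 hsub
  have hne : ∀ K ∈ T c₀, K.Nonempty := fun K hK => (h.tame.1 K (h01 hK)).2.1.nonempty
  have hpre : ∀ K ∈ T c₀, IsPreconnected (cluster (T c₀) K) := fun K hK =>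
    isPreconnected_cluster (fun A hA => (h.tame.1 A (h01 hA)).2.1.isConnected.isPreconnected) hK
      (hne K hK)
  have hcp : ∀ K ∈ T c₀, IsCompact (closure (cluster (T c₀) K)) := fun K hK => by
    have := h.ncl K hK (hsub K hK)
    rw [ins, hins] at this
    exact (hVb.subset (subset_closure.trans this)).isCompact_closure
  let G := (fun K => closure (cluster (T c₀) K)) '' {K ∈ T c₀ | ξ ≤ diam K}
  have hG : G.Finite := ((h.tame.2 ξ hξ).subset fun K hK => ⟨h01 hK.1, hK.2⟩).image _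
  have hc : ∀ A ∈ G, IsCompact A := by
    rintro _ ⟨K, hK, rfl⟩
    exact hcp K hK.1
  have hd : G.Pairwise Disjoint := by
    rintro _ ⟨K, hK, rfl⟩ _ ⟨K', hK', rfl⟩ hn
    exact (p1 K hK.1 K' hK'.1).resolve_left fun e => hn (congrArg closure e)
  have h1 : closure (TT ξ (T c₀)) ⊆ ⋃₀ G := closure_minimal
    (sUnion_subset fun K hK => ((sub_cl .refl).trans subset_closure).trans
      (subset_sUnion_of_mem ⟨K, hK, rfl⟩)) (hG.isCompact_sUnion hc).isClosed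
  obtain ⟨_, ⟨_, ⟨K, hK, rfl⟩, rfl⟩, hF⟩ := FraA.loc (hG.image fill)
    (by rintro _ ⟨A, hA, rfl⟩; exact (hFILL A (hc A hA)).1.isClosed)
    (by
      rintro _ ⟨_, ⟨K, hK, rfl⟩, rfl⟩ _ ⟨_, ⟨K', hK', rfl⟩, rfl⟩
      rcases p1 K hK.1 K' hK'.1 with e | e
      · exact Or.inr (Or.inl (by simp only [e, Subset.rfl]))
      · exact nest hFILL (hcp K hK.1) (hcp K' hK'.1) (hpre K hK.1).closure (hpre K' hK'.1).closure
          ((hne K hK.1).mono ((sub_cl .refl).trans subset_closure)) e)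
    (interior_mono ((fill_mono h1).trans (FraA.many hFILL hEIL hG hc hd)) hi)
  obtain ⟨W, hW, hs⟩ := p4 _ ⟨K, hK.1, hsub K hK.1, rfl⟩
  exact hz.2 ⟨W, hW, hs ⟨hzV, by rwa [hins]⟩⟩

end Pool.Agent.P.MP_d66c6d_pr
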