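import Pool.Agent.P.MP_d66c6d_pr.E.Iface
import Pool.Agent.P.MP_d66c6d_pr.T.Iface

/-! Step FRB of the carpet project. -/

namespace Pool.Agent.P.MP_d66c6d_pr

open MeasureTheory ProbabilityTheory Set Metric Filter Topology
open scoped ENNReal

namespace FrbA

theorem mem_fill_frontier {F : Set ℂ} (hF : Bornology.IsBounded F) {a : ℂ} (ha : a ∈ interior F) :
    a ∈ fill (frontier F) := by
  have h1 : a ∈ (frontier F)ᶜ := fun h => h.2 ha
  refine (hF.subset interior_subset).subset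
    (IsPreconnected.subset_left_of_subset_union isOpen_interior (isOpen_interior (s := Fᶜ))
      (disjoint_compl_right.mono interior_subset interior_subset) ?_
      ⟨a, mem_connectedComponentIn h1, ha⟩ isPreconnected_connectedComponentIn)
  rw [← compl_frontier_eq_union_interior]
  exact connectedComponentIn_subset _ _

theorem core (hNET : S_NET) (hFILL : S_FILL) (hEIL : S_EIL) {C : Set ℂ}
    (hC : Bornology.IsBounded C) (X : ℝ → Set ℂ) (mono : ∀ ξ ξ', ξ' ≤ ξ → X ξ ⊆ X ξ')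
    (lc : ∀ η > (0 : ℝ), ∃ η' > (0 : ℝ), ∀ p ∈ C, ∀ p' ∈ C, dist p p' < η' →
      ∃ ξ > (0 : ℝ), JoinedIn (X ξ ∩ ball p η) p p')
    {Q : Set ℂ} (hQ : Q ⊆ interior (fill (closure C))) (hQc : IsCompact Q) :
    ∃ ξ > (0 : ℝ), Q ⊆ interior (fill (X ξ)) := by
  have hcl := hC.isCompact_closure
  obtain ⟨hF, -, -, hEC, -⟩ := hFILL _ hcl
  set F := fill (closure C)
  have hE : IsCompact (frontier F) := hcl.of_isClosed_subset isClosed_frontier hEC
  obtain ⟨δ, hδ, hδQ⟩ := hQc.exists_thickening_subset_open isOpen_interior hQ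
  obtain ⟨η', hη', hlc⟩ := lc (δ / 20) (by positivity)
  set r := min η' (δ / 20) / 2 with hr
  have hr0 : 0 < r := by positivity
  have hr1 : 2 * r ≤ η' := by linarith [min_le_left η' (δ / 20)]
  have hr2 : 2 * r ≤ δ / 20 := by linarith [min_le_right η' (δ / 20)]
  obtain ⟨P, hP, hPf, hcov⟩ := hE.elim_finite_subcover_image
    (b := {p ∈ C | ∃ e ∈ frontier F, dist e p < r}) (c := fun p => ball p r)
    (fun _ _ => isOpen_ball) fun e he => by
      obtain ⟨p, hp, h⟩ := Metric.mem_closure_iff.1 (hEC he) r hr0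
      exact mem_biUnion ⟨hp, e, he, h⟩ h
  have hI : {q : ℂ × ℂ | q.1 ∈ P ∧ q.2 ∈ P ∧ dist q.1 q.2 < 2 * r}.Finite :=
    (hPf.prod hPf).subset fun q hq => ⟨hq.1, hq.2.1⟩
  obtain ⟨ξ, hZ, hξ⟩ := (((eventually_all_finite hI (l := 𝓝[>] (0 : ℝ))
    (p := fun q ξ => ∃ Z ⊆ X ξ ∩ ball q.1 (δ / 20), IsCompact Z ∧ IsPreconnected Z ∧ q.1 ∈ Z ∧
      q.2 ∈ Z)).2 fun q hq => by
    obtain ⟨ξ₀, h0, γ, hγ⟩ := hlc _ (hP hq.1).1 _ (hP hq.2.1).1 (hq.2.2.trans_le hr1)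
    filter_upwards [Ioc_mem_nhdsGT h0] with ξ hξ
    refine ⟨range γ, ?_, isCompact_range γ.continuous, isPreconnected_range γ.continuous,
      ⟨0, γ.source⟩, ⟨1, γ.target⟩⟩
    rintro _ ⟨t, rfl⟩
    exact ⟨mono _ _ hξ.2 (hγ t).1, (hγ t).2⟩).and self_mem_nhdsWithin).exists
  choose! Z hZ1 hZ2 hZ3 hZ4 hZ5 using hZ
  set A := ⋃ q ∈ {q : ℂ × ℂ | q.1 ∈ P ∧ q.2 ∈ P ∧ dist q.1 q.2 < 2 * r}, Z q with hA
  have hAc : IsCompact A := hI.isCompact_biUnion hZ2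
  refine ⟨ξ, hξ, (self_subset_thickening (half_pos hδ) Q).trans
    (interior_maximal (fun a ha => fill_mono (B := X ξ) (A := A)
      (iUnion₂_subset fun q hq => (hZ1 q hq).trans inter_subset_left) ?_) isOpen_thickening)⟩
  obtain ⟨y, hy, hay⟩ := mem_thickening_iff.1 ha
  have h1 : ∀ z, dist z a < δ / 2 → z ∈ interior F := fun z hz =>
    hδQ (mem_thickening_iff.2 ⟨y, hy, by linarith [dist_triangle z a y]⟩)
  have haF : a ∈ interior F := h1 a (by simpa using half_pos hδ)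
  have h2 : ∀ p ∈ P, δ / 4 ≤ dist p a := fun p hp => by
    obtain ⟨e, he, h⟩ := (hP hp).2
    have : δ / 2 ≤ dist e a := not_lt.1 fun h' => he.2 (h1 e h')
    linarith [dist_triangle e p a]
  by_contra hn
  refine (hEIL.1 _ hE a fun h => h.2 haF).2 (hNET _ A P _ r (δ / 20) (by linarith)
    (fun p hp => mem_biUnion (x := (p, p)) ⟨hp, hp, by simpa using hr0⟩
      (hZ4 (p, p) ⟨hp, hp, by simpa using hr0⟩)) (by fun_prop) hcov (fun p hp u hu => ?_)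
    (fun p hp p' hp' h => ⟨Z (p, p'), fun z hz => ⟨mem_biUnion (x := (p, p')) ⟨hp, hp', h⟩ hz,
      (hZ1 (p, p') ⟨hp, hp', h⟩ hz).2⟩, hZ3 _ ⟨hp, hp', h⟩, hZ4 (p, p') ⟨hp, hp', h⟩,
      hZ5 (p, p') ⟨hp, hp', h⟩⟩)
    ((hEIL.1 A hAc a fun h => ?_).1 hn)) (mem_fill_frontier hF.isBounded haF)
  · have := h2 p hp
    rw [sub_sub_sub_cancel_right, ← dist_eq_norm, ← dist_eq_norm]
    linarith [mem_ball.1 hu]
  · obtain ⟨q, hq, h⟩ := mem_iUnion₂.1 h
    have h3 := mem_ball'.1 (hZ1 q hq h).2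
    linarith [h2 _ hq.1]

end FrbA

theorem p_FRB (hLCC : S_LCC) (hNET : S_NET) (hFILL : S_FILL) (hEIL : S_EIL) :
    S_FRB := by
  intro V T c₀ c₁ hV hb hL
  have hsub : ∀ K ∈ T c₀, K ⊆ V := fun K hK => hL.sub K (hL.mono _ _ le_rfl hL.lt.le le_rfl hK)
  have h1 : ∀ K ∈ T c₀, ∀ Q ⊆ interior (fill (closure (cluster (T c₀) K))), IsCompact Q →
      ∃ ξ > (0 : ℝ), Q ⊆ interior (fill (TT ξ (T c₀) ∩ cluster (T c₀) K)) := by
    intro K hK Q hQ hQc
    refine FrbA.core hNET hFILL hEIL (hb.subset ?_) _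
      (fun ξ ξ' h => inter_subset_inter_left _ (TT_mono h le_rfl))
      (hLCC V T c₀ c₁ hV hb hL K hK) hQ hQc
    rintro z ⟨K', hK', hz⟩
    refine hsub K' ?_ hz
    rcases Relation.ReflTransGen.cases_tail hK' with h | ⟨_, _, h⟩
    · rwa [h]
    · exact h.1
  refine ⟨h1, fun y hy => ⟨subset_closure hy.2, ?_⟩⟩
  rintro ⟨W, ⟨⟨K, hK, -, rfl⟩, -⟩, -, hyW⟩
  rw [show {K ∈ T c₀ | K ⊆ V} = T c₀ from sep_eq_self_iff_mem_true.2 hsub] at hyW
  obtain ⟨ξ, hξ, h⟩ := h1 K hK {y} (singleton_subset_iff.2 hyW) isCompact_singleton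
  exact hy.1 ξ hξ (interior_mono (fill_mono (inter_subset_left.trans subset_closure)) (h rfl))

end Pool.Agent.P.MP_d66c6d_pr
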