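import Pool.Agent.P.MP_d66c6d_pr.E.Iface
import Pool.Agent.P.MP_d66c6d_pr.S.Iface3
import Pool.Agent.P.MP_d66c6d_pr.A.Iface
import Pool.Agent.P.MP_d66c6d_pr.S.Cova

/-! Step FRC of the carpet project. -/

namespace Pool.Agent.P.MP_d66c6d_pr

open MeasureTheory ProbabilityTheory Set Metric Filter Topology
open scoped ENNReal

theorem p_FRC (hLAYN : S_LAYN) (hFRA : S_FRA) (hFRB : S_FRB) (hCOVA : S_COVA) (hJOR : S_JOR) :
    S_FRC := by
  intro ν hν c c₂ θ₂ hc hcc hc2 hL V R hV hVR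
  have hO : IsOpen V := (hJOR V hV).1
  have hB : Bornology.IsBounded V := isBounded_ball.subset hVR
  filter_upwards [hLAYN ν hν c c₂ θ₂ hc hcc hc2 hL V R hV hVR,
    hCOVA ν hν c c₂ θ₂ hc hcc hc2 hL V R hV hVR] with N h1 h2
  obtain ⟨T, c₁, hT, hTc⟩ := h1
  have hcarp : carp (ins V (trace '' N.pts)) V = carp (trace '' N.pts) V := by
    rw [carp, carp, CovaA.cle_ins]
  have hA := hFRA V T c c₁ hO hB hT
  have hB' := (hFRB V T c c₁ hO hB hT).2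
  have hTame : Tame (T c) := hT.tame.mono (hT.mono c c₁ le_rfl hT.lt.le le_rfl)
  rw [hTc] at hA hB' hTame
  rw [hcarp] at hA hB'
  refine ⟨hTame, h2.1, Subset.antisymm (fun y hy => ⟨hA hy, hy.2⟩) fun y hy => ⟨hB' hy, hy.2⟩,
    h2.2.2.1, h2.2.2.2.1⟩

end Pool.Agent.P.MP_d66c6d_pr
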