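import Pool.Agent.P.MP_d66c6d_pr.E.Defs

/-!
Statements of the chapter on left continuity.
-/

namespace Pool.Agent.P.MP_d66c6d_pr

open MeasureTheory ProbabilityTheory Set Metric Filter Topology
open scoped ENNReal

-- deps:
/-- A continuum that leaves a disc contains a continuum from any inner point to the circle. -/
def S_BUMP : Prop := ∀ (Γ : Set ℂ) (c x : ℂ) (r : ℝ), IsCompact Γ → IsPreconnected Γ → x ∈ Γ →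
  x ∈ closedBall c r → ¬ Γ ⊆ ball c r → ∃ Γ' ⊆ Γ ∩ closedBall c r, IsCompact Γ' ∧
    IsPreconnected Γ' ∧ x ∈ Γ' ∧ ¬ Γ' ⊆ ball c r

-- deps:
/-- Paths near continua, local path connectedness of traces, and paths along chains. -/
def S_LPC : Prop :=
  (∀ X Γ : Set ℂ, (∀ ρ > (0 : ℝ), ∃ s > (0 : ℝ), ∀ x ∈ X, ∀ y ∈ X, dist x y < s →
      JoinedIn (X ∩ ball x ρ) x y) → Γ ⊆ X → IsPreconnected Γ → ∀ η > (0 : ℝ), ∀ x ∈ Γ, ∀ y ∈ Γ,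
    JoinedIn (X ∩ thickening η Γ) x y) ∧
  (∀ γ : Br, ∀ η > (0 : ℝ), ∃ η' > (0 : ℝ), ∀ x ∈ range γ, ∀ p ∈ range γ, dist p x < η' →
    JoinedIn (range γ ∩ ball x η) p x) ∧
  ∀ T : Set (Set ℂ), Tame T → ∀ A ∈ T, ∀ p ∈ cluster T A, ∀ p' ∈ cluster T A,
    ∃ ξ > (0 : ℝ), JoinedIn (TT ξ T ∩ cluster T A) p p'

-- deps: FILL CONF
-- imports: Pool.Agent.P.MP_56bcbf_an.Koebe
/-- Conformal charts preserve fillings, and their inverses are Lipschitz on smaller discs. -/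
def S_FIMG : Prop := ∀ (V : Set ℂ) (f g : ℂ → ℂ), Conf V f g →
  (NoHole V → ∀ A ⊆ V, IsCompact A → f '' interior (fill A) ⊆ interior (fill (f '' A))) ∧
  DifferentiableOn ℂ g (ball 0 1) ∧
  ∃ Λ ρ : ℝ, 0 < Λ ∧ 0 < ρ ∧
    (∀ x ∈ closedBall (0 : ℂ) (3 / 4), ∀ y ∈ closedBall (0 : ℂ) (3 / 4),
      dist (g x) (g y) ≤ Λ * dist x y) ∧
    ∀ x ∈ closedBall (0 : ℂ) (1 / 4), ∀ y ∈ sphere (0 : ℂ) (1 / 2), ρ ≤ dist (g x) (g y)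

-- deps: LOGA
/-- Logarithms extend from a net whose close points are joined by small connected sets. -/
def S_NET : Prop := ∀ (E A P : Set ℂ) (F : ℂ → ℂ) (r η : ℝ), r ≤ η → P ⊆ A →
  ContinuousOn F E → E ⊆ ⋃ p ∈ P, ball p r →
  (∀ p ∈ P, ∀ u ∈ ball p η, ‖F u - F p‖ ≤ ‖F p‖ / 2) →
  (∀ p ∈ P, ∀ p' ∈ P, dist p p' < 2 * r →
    ∃ Z ⊆ A ∩ ball p η, IsPreconnected Z ∧ p ∈ Z ∧ p' ∈ Z) →
  HasLog F A → HasLog F E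

-- deps: FILL
-- imports: Pool.Agent.P.MP_d66c6d_pr.S.Covr
/-- Local clusters have disjoint closures, and a loop that touches one of them meets it. -/
def S_DJL : Prop := ∀ (V : Set ℂ) (T : ℝ → Set (Set ℂ)) (c₀ c₁ : ℝ), Lay V T c₀ c₁ →
  ∀ (q : ℚ × ℚ × ℚ) (B : Set ℂ), B = ball (qp q) q.2.2 → B ⊆ V → ∀ A ∈ ins B (T c₀),
    (∀ A' ∈ ins B (T c₀), cluster (ins B (T c₀)) A = cluster (ins B (T c₀)) A' ∨
      Disjoint (closure (cluster (ins B (T c₀)) A)) (closure (cluster (ins B (T c₀)) A'))) ∧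
    ∀ K ∈ T c₀, ¬ K ⊆ B → ∀ x ∈ K, x ∈ closure (cluster (ins B (T c₀)) A) →
      ∀ O : Set ℂ, IsOpen O → x ∈ O → ∃ w ∈ cluster (ins B (T c₀)) A, JoinedIn (K ∩ O) x w

-- deps: DJL LPC
-- imports: Pool.Agent.P.MP_d66c6d_pr.S.Covr
/-- Clusters are uniformly locally connected through finite chains. -/
def S_LCC : Prop := ∀ (V : Set ℂ) (T : ℝ → Set (Set ℂ)) (c₀ c₁ : ℝ), IsOpen V →
  Bornology.IsBounded V → Lay V T c₀ c₁ → ∀ K ∈ T c₀, ∀ η > (0 : ℝ), ∃ η' > (0 : ℝ),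
    ∀ p ∈ cluster (T c₀) K, ∀ p' ∈ cluster (T c₀) K, dist p p' < η' →
      ∃ ξ > (0 : ℝ), JoinedIn (TT ξ (T c₀) ∩ cluster (T c₀) K ∩ ball p η) p p'

-- deps: COVR FILL EIL
-- imports: Pool.Agent.P.MP_d66c6d_pr.S.Covr
/-- The carpet is not surrounded by finitely many loops. -/
def S_FRA : Prop := ∀ (V : Set ℂ) (T : ℝ → Set (Set ℂ)) (c₀ c₁ : ℝ), IsOpen V →
  Bornology.IsBounded V → Lay V T c₀ c₁ → carp (T c₀) V ∩ V ⊆ Fr (T c₀)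

-- deps: LCC NET FILL EIL
/-- The holes are exhausted by the fillings of finitely many loops. -/
def S_FRB : Prop := ∀ (V : Set ℂ) (T : ℝ → Set (Set ℂ)) (c₀ c₁ : ℝ), IsOpen V →
  Bornology.IsBounded V → Lay V T c₀ c₁ →
  (∀ K ∈ T c₀, ∀ Q ⊆ interior (fill (closure (cluster (T c₀) K))), IsCompact Q →
    ∃ ξ > (0 : ℝ), Q ⊆ interior (fill (TT ξ (T c₀) ∩ cluster (T c₀) K))) ∧
  Fr (T c₀) ∩ V ⊆ carp (T c₀) V

-- deps: LAY JOR PPO MUK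
-- imports: Pool.Agent.P.MP_d66c6d_pr.S.Cova
/-- The structure of one soup in a Jordan domain. -/
def S_LAYN : Prop := ∀ ν : Measure Br, IsBridge ν → ∀ c c₂ θ₂ : ℝ, 0 < c → c < c₂ → c₂ ≤ 1 →
  Lvl ν c₂ θ₂ → ∀ (V : Set ℂ) (R : ℝ), IsJordan V → V ⊆ ball 0 R →
  ∀ᵐ N ∂PP (ENNReal.ofReal c • loopMeasure ν), ∃ (T : ℝ → Set (Set ℂ)) (c₁ : ℝ),
    Lay V T c c₁ ∧ T c = ins V (trace '' N.pts)

-- deps: LAYN FRA FRB COVA JOR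
-- imports: Pool.Agent.P.MP_d66c6d_pr.S.Cova
/-- The carpet in a Jordan domain through finite chains. -/
def S_FRC : Prop := ∀ ν : Measure Br, IsBridge ν → ∀ c c₂ θ₂ : ℝ, 0 < c → c < c₂ → c₂ ≤ 1 →
  Lvl ν c₂ θ₂ → ∀ (V : Set ℂ) (R : ℝ), IsJordan V → V ⊆ ball 0 R →
  ∀ᵐ N ∂PP (ENNReal.ofReal c • loopMeasure ν), Tame (ins V (trace '' N.pts)) ∧
    V ∉ cleIn2 (trace '' N.pts) V ∧
    carp (trace '' N.pts) V ∩ V = Fr (ins V (trace '' N.pts)) ∩ V ∧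
    (carp (trace '' N.pts) V ∩ V).Nonempty ∧ frontier V ⊆ carp (trace '' N.pts) V

-- deps:
/-- The bad events are measurable, local and decreasing. -/
def S_BLM : Prop := ∀ (n : ℕ) (M v : ℝ) (x : ℂ) (r : ℝ), 0 < r →
  MeasurableSet (badL n M v x r) ∧
  (∀ S T : Cfg KC, S.pts ∩ (inK (ball x (4 * r)) ∩ bigK (r / (n + 1))) =
    T.pts ∩ (inK (ball x (4 * r)) ∩ bigK (r / (n + 1))) → S ∈ badL n M v x r →
    T ∈ badL n M v x r) ∧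
  badL (n + 1) M v x r ⊆ badL n M v x r

-- deps: BLM PPO MUK
/-- Covariance of the bad events. -/
def S_BLC : Prop :=
  (∀ (n : ℕ) (M v : ℝ) (x a b : ℂ) (r : ℝ) (S : Cfg KC), a ≠ 0 → 0 < r → 0 < M →
    (S.map (simK a b) ∈ badL n M v (a * x + b) (‖a‖ * r) ↔ S ∈ badL n M v x r)) ∧
  ∀ ν : Measure Br, IsBridge ν → ∀ α : ℝ≥0∞, α ≠ ∞ → ∀ (n : ℕ) (M v : ℝ) (x : ℂ) (r : ℝ),
    0 < r → 0 < M → PP (α • muK ν) (badL n M v x r) = PP (α • muK ν) (badL n M v 0 (1 / 4))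

-- deps:
/-- The limit of the cheap crossings. -/
def S_BLI : Prop := ∀ (M v : ℝ) (x : ℂ) (r : ℝ) (S : Cfg KC), 0 < r →
  (∀ n, S ∈ badL n M v x r) → ∃ Γ, Chp M v x r Γ ∧ Γ ⊆ Fr (ins (ball x (4 * r)) (sets S))

-- deps: BLI FIMG LPC COV EXP
/-- Expensive long paths in the carpet exclude cheap crossings in the image. -/
def S_LTD : Prop := ∀ (V : Set ℂ) (f g : ℂ → ℂ), Conf V f g → NoHole V → ∃ Λ > (0 : ℝ),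
  ∀ (T : Set (Set ℂ)) (S : Cfg KC) (X : Set ℂ) (a : ℝ → ℝ) (e : ℕ → ℝ) (θ δ : ℝ), Tame T →
  (∀ K ∈ T, K ⊆ V ∧ f '' K ∈ sets S) → Fr T ∩ V ⊆ X → Nrm a θ → XU X a e → XL X a e →
  (∀ j, 0 < e j) → Tendsto e atTop (𝓝 0) → 0 < δ →
  ∀ᶠ j in atTop, ∃ n, S ∉ badL n (Λ / e j) ((Λ / e j) ^ (θ - 2 - δ)) 0 (1 / 4)

-- deps: DAT LTD FRC BLM IMS RMT JOR LVB PPO MUK
/-- The lower tail of the crossing cost in the unit disc. -/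
def S_LT : Prop := ∀ ν : Measure Br, IsBridge ν → ∀ c θ c₂ θ₂ : ℝ, 0 < c → c < c₂ → c₂ ≤ 1 →
  Lvl ν c θ → Lvl ν c₂ θ₂ → ∀ δ > (0 : ℝ), ∀ p : ℝ≥0∞, p ≠ 0 → ∀ M₀ : ℝ, ∃ M ≥ M₀, ∃ n,
    PP (ENNReal.ofReal c • muK ν) (badL n M (M ^ (θ - 2 - δ)) 0 (1 / 4)) ≤ p

-- deps: PEIA GAIN BLM BLC BUMP MUK
/-- A rare bad event gives the gain of area with high probability. -/
def S_PEL : Prop := ∃ p : ℝ≥0∞, p ≠ 0 ∧ ∀ ν : Measure Br, IsBridge ν → ∀ α : ℝ≥0∞, α ≠ ∞ →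
  ∀ (n : ℕ) (M v : ℝ), 1 ≤ M → 0 ≤ v → PP (α • muK ν) (badL n M v 0 (1 / 4)) ≤ p →
  ∀ (z : ℂ) (ρ : ℝ), 0 < ρ → Tendsto (fun ε => PP (α • muK ν)
    {S | ¬ Gain (Fr (ins (ball z (2 * ρ)) (sets S))) z ρ ε M (v / 1600)}) (𝓝[>] 0) (𝓝 0)

-- deps: TRF BAS FRC LOWX JOR PPO MUK
/-- The gain of area bounds the exponent from below. -/
def S_LOWT : Prop := ∀ ν : Measure Br, IsBridge ν → ∀ c θ c₂ θ₂ : ℝ, 0 < c → c < c₂ → c₂ ≤ 1 →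
  Lvl ν c θ → Lvl ν c₂ θ₂ → ∀ M g : ℝ, 0 < M → 0 < g →
  (∀ (z : ℂ) (ρ : ℝ), 0 < ρ → Tendsto (fun ε => PP (ENNReal.ofReal c • muK ν)
    {S | ¬ Gain (Fr (ins (ball z (2 * ρ)) (sets S))) z ρ ε M g}) (𝓝[>] 0) (𝓝 0)) →
  g ≤ M ^ (θ - 2)

-- deps: LT PEL LOWT BLM PPA MUK
/-- Lower semicontinuity of the exponent from the left. -/
def S_LEFT : Prop := ∀ ν : Measure Br, IsBridge ν → ∀ Θ : ℝ → ℝ, AllL ν Θ →
  ∀ c ∈ Ioo (0 : ℝ) (1 / 2), ∀ d > (0 : ℝ), ∀ᶠ c' in 𝓝[<] c, Θ c - d ≤ Θ c'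

end Pool.Agent.P.MP_d66c6d_pr
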