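import Pool.Agent.P.MP_d66c6d_pr.E.Iface
import Pool.Agent.P.MP_d66c6d_pr.G.IfaceX
import Pool.Agent.P.MP_d66c6d_pr.A.Iface
import Pool.Agent.P.MP_d66c6d_pr.F.Iface
import Pool.Agent.P.MP_d66c6d_pr.S.Cova

/-! Step LAYN of the carpet project. -/

namespace Pool.Agent.P.MP_d66c6d_pr

open MeasureTheory ProbabilityTheory Set Metric Filter Topology
open scoped ENNReal

theorem p_LAYN (hLAY : S_LAY) (hJOR : S_JOR) (hPPO : S_PPO) (hMUK : S_MUK) :
    S_LAYN := by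
  intro ν hν c c₂ θ₂ hc hcc hc1 hL V R hV hVR
  have _ := hJOR
  have hx : IsProbabilityMeasure (xsoup ν c R) := instProbPP _
  have h1 := Measure.ae_ae_of_ae_prod
    (hLAY ν hν c ((c + c₂) / 2) c₂ θ₂ hc (by linarith) (by linarith) hc1 hL V R hV hVR)
  refine h1.mono fun N hN => ?_
  obtain ⟨X, hX, hX'⟩ := (hN.and (CovaA.lab hPPO hMUK hν c R)).exists
  exact ⟨lay V N X, _, hX, by rw [lay, hX', union_empty]⟩

end Pool.Agent.P.MP_d66c6d_pr
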