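import Pool.Agent.P.MP_d66c6d_pr.E.Iface
import Pool.Agent.P.MP_d66c6d_pr.S.Covr

/-! Step LCC of the carpet project. -/

namespace Pool.Agent.P.MP_d66c6d_pr

open MeasureTheory ProbabilityTheory Set Metric Filter Topology
open scoped ENNReal

namespace LccA

open CovrA

theorem exists_ball (x : ℂ) {ε : ℝ} (hε : 0 < ε) :
    ∃ q : ℚ × ℚ × ℚ, x ∈ ball (qp q) q.2.2 ∧ ball (qp q) q.2.2 ⊆ ball x ε := by
  obtain ⟨r, h0, h1⟩ := exists_rat_btwn (half_pos hε)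
  obtain ⟨a, ha⟩ := exists_rat_near x.re (half_pos h0)
  obtain ⟨b, hb'⟩ := exists_rat_near x.im (half_pos h0)
  have hd : dist x (qp (a, b, r)) < r := by
    rw [dist_eq_norm]
    refine (Complex.norm_le_abs_re_add_abs_im _).trans_lt ?_
    simp only [qp, Complex.sub_re, Complex.sub_im, Complex.add_re, Complex.add_im, Complex.mul_re,
      Complex.mul_im, Complex.ratCast_re, Complex.ratCast_im, Complex.I_re, Complex.I_im, mul_zero,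
      mul_one, sub_zero, add_zero, zero_add]
    linarith
  refine ⟨(a, b, r), hd, ball_subset_ball' ?_⟩
  rw [dist_comm]
  change (r : ℝ) + _ ≤ ε
  linarith

/-- Joined through finitely many members inside `G`. -/
def Rl (T : Set (Set ℂ)) (G : Set ℂ) (p p' : ℂ) : Prop :=
  ∃ ξ > (0 : ℝ), JoinedIn (TT ξ T ∩ G) p p'

theorem Rl.symm {T : Set (Set ℂ)} {G : Set ℂ} {p p' : ℂ} (h : Rl T G p p') : Rl T G p' p := by
  obtain ⟨ξ, h1, h2⟩ := h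
  exact ⟨ξ, h1, h2.symm⟩

theorem Rl.trans {T : Set (Set ℂ)} {G : Set ℂ} {p p' p'' : ℂ} (h : Rl T G p p')
    (h' : Rl T G p' p'') : Rl T G p p'' := by
  obtain ⟨ξ, h1, h2⟩ := h
  obtain ⟨ξ', h1', h2'⟩ := h'
  exact ⟨min ξ ξ', lt_min h1 h1',
    (h2.mono (inter_subset_inter_left _ (TT_mono (min_le_left _ _) Subset.rfl))).trans
      (h2'.mono (inter_subset_inter_left _ (TT_mono (min_le_right _ _) Subset.rfl)))⟩

theorem loc (hDJL : S_DJL) (hLPC : S_LPC) {V : Set ℂ} {T : ℝ → Set (Set ℂ)} {c₀ c₁ : ℝ}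
    (h : Lay V T c₀ c₁) {K : Set ℂ} (hK : K ∈ T c₀) {x : ℂ} (q : ℚ × ℚ × ℚ) (B : Set ℂ)
    (hB : B = ball (qp q) q.2.2) (hBV : B ⊆ V) (hx : x ∈ B) :
    ∃ d > (0 : ℝ), ∀ p ∈ cluster (T c₀) K ∩ ball x d, ∀ p' ∈ cluster (T c₀) K ∩ ball x d,
      Rl (T c₀) (cluster (T c₀) K ∩ B) p p' := by
  have h01 : T c₀ ⊆ T c₁ := h.mono c₀ c₁ le_rfl h.lt.le le_rfl
  have hT : Tame (T c₀) := h.tame.mono h01
  have hBo : IsOpen B := hB ▸ isOpen_ball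
  have hdj := hDJL V T c₀ c₁ h q B hB hBV
  have hsub : ins B (T c₀) ⊆ T c₀ := fun _ hA => hA.1
  generalize hC : cluster (T c₀) K = C
  have hlk : ∀ A, Lk (T c₀) K A → A ⊆ C := fun A hA => hC ▸ sub_cl hA
  have hDC : ∀ A ∈ ins B (T c₀), Lk (T c₀) K A → ∀ w ∈ cluster (ins B (T c₀)) A,
      ∃ M, Lk (T c₀) K M ∧ M ⊆ B ∧ w ∈ M := by
    rintro A hA hl w ⟨M, hM, hw⟩
    exact ⟨M, hl.trans (Lk.mono hsub hM), (Lk.mem hA hM).2, hw⟩
  have L1 : ∀ A ∈ ins B (T c₀), Lk (T c₀) K A → ∀ p ∈ cluster (ins B (T c₀)) A,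
      ∀ p' ∈ cluster (ins B (T c₀)) A, Rl (T c₀) (C ∩ B) p p' := by
    intro A hA hl p hp p' hp'
    obtain ⟨ξ, h1, h2⟩ := hLPC.2.2 _ (hT.mono hsub) A hA p hp p' hp'
    refine ⟨ξ, h1, h2.mono fun w hw => ⟨TT_mono le_rfl hsub hw.1, ?_⟩⟩
    obtain ⟨M, m1, m2, m3⟩ := hDC A hA hl w hw.2
    exact ⟨hlk M m1 m3, m2 m3⟩
  have L2 : ∀ M ∈ T c₀, Lk (T c₀) K M → ∀ u v, JoinedIn (M ∩ B) u v → Rl (T c₀) (C ∩ B) u v :=
    fun M hM hl u v hj => ⟨diam M, (hT.1 M hM).2.2, hj.mono fun w hw =>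
      ⟨mem_TT.2 ⟨M, hM, le_rfl, hw.1⟩, hlk M hl hw.1, hw.2⟩⟩
  have hCm : ∀ p ∈ C, ∃ A ∈ T c₀, Lk (T c₀) K A ∧ p ∈ A := by
    rw [← hC]
    rintro p ⟨A, hA, hp⟩
    exact ⟨A, Lk.mem hK hA, hA, hp⟩
  by_cases h1 : ∃ A ∈ ins B (T c₀), Lk (T c₀) K A ∧
      ∀ M ∈ T c₀, (M ∩ cluster (ins B (T c₀)) A).Nonempty → M ⊆ B
  · obtain ⟨A, hA, hl, hM⟩ := h1
    have key : ∀ M, Lk (T c₀) A M → Lk (ins B (T c₀)) A M := by
      intro M hM'
      induction hM' with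
      | refl => exact .refl
      | tail h1 h2 ih =>
        obtain ⟨w, w1, w2⟩ := h2.2
        exact ih.tail ⟨⟨h2.1, hM _ h2.1 ⟨w, w2, sub_cl ih w1⟩⟩, w, w1, w2⟩
    have key2 : ∀ p ∈ C, p ∈ cluster (ins B (T c₀)) A := by
      intro p hp
      obtain ⟨M, -, m1, m2⟩ := hCm p hp
      exact sub_cl (key M ((hl.symm hK).trans m1)) m2
    exact ⟨1, one_pos, fun p hp p' hp' => L1 A hA hl p (key2 p hp.1) p' (key2 p' hp'.1)⟩
  have h2 : ∀ A ∈ ins B (T c₀), Lk (T c₀) K A →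
      ∃ M ∈ T c₀, ¬ M ⊆ B ∧ (M ∩ cluster (ins B (T c₀)) A).Nonempty := by
    intro A hA hl
    by_contra hn
    exact h1 ⟨A, hA, hl, fun M hM hne => by_contra fun hb => hn ⟨M, hM, hb, hne⟩⟩
  clear h1
  obtain ⟨s, hs, hsB⟩ := Metric.isOpen_iff.1 hBo x hx
  have e1 : ∀ᶠ p in 𝓝 x, ∀ M ∈ {M ∈ T c₀ | s / 2 ≤ diam M}, p ∈ M →
      x ∈ M ∧ JoinedIn (M ∩ B) p x := by
    refine (eventually_all_finite (hT.2 _ (half_pos hs))).2 fun M hM => ?_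
    by_cases hxM : x ∈ M
    · obtain ⟨γ, rfl, -⟩ := h.hit M hM.1
      obtain ⟨η', h1, h3⟩ := hLPC.2.1 γ s hs
      filter_upwards [ball_mem_nhds x h1] with p hp hpM
      exact ⟨hxM, (h3 x hxM p hpM hp).mono (inter_subset_inter_right _ hsB)⟩
    · filter_upwards [(hT.1 M hM.1).1.isClosed.isOpen_compl.mem_nhds hxM] with p hp hpM
      exact absurd hpM hp
  obtain ⟨d₁, hd₁, H0⟩ := Metric.eventually_nhds_iff_ball.1
    (e1.and (ball_mem_nhds x (half_pos hs)))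
  have H1 : ∀ p ∈ ball x d₁, ∀ M ∈ T c₀, ¬ M ⊆ B → p ∈ M → x ∈ M ∧ JoinedIn (M ∩ B) p x := by
    intro p hp M hM hMB hpM
    refine (H0 p hp).1 M ⟨hM, ?_⟩ hpM
    obtain ⟨w, w1, w2⟩ := not_subset.1 hMB
    have a1 : s ≤ dist w x := not_lt.1 fun a => w2 (hsB a)
    have a2 : dist p x < s / 2 := (H0 p hp).2
    have a3 := dist_le_diam_of_mem (hT.1 M hM).1.isBounded w1 hpM
    have a4 := dist_triangle w p x
    linarith
  obtain ⟨η₀, hη₀, hsc⟩ := h.subc (d₁ / 3) (by positivity)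
  have e2 : ∀ᶠ p in 𝓝 x, ∀ M ∈ {M ∈ T c₀ | η₀ ≤ diam M}, p ∈ cluster (ins B (T c₀)) M →
      x ∈ closure (cluster (ins B (T c₀)) M) := by
    refine (eventually_all_finite (hT.2 _ hη₀)).2 fun M hM => ?_
    by_cases hxM : x ∈ closure (cluster (ins B (T c₀)) M)
    · exact Eventually.of_forall fun _ _ => hxM
    · filter_upwards [isClosed_closure.isOpen_compl.mem_nhds hxM] with p hp hpM
      exact absurd (subset_closure hpM) hp
  obtain ⟨d, hd, H2⟩ := Metric.eventually_nhds_iff_ball.1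
    (e2.and (ball_mem_nhds x (show 0 < d₁ / 3 by positivity)))
  have tri : ∀ p ∈ C ∩ ball x d,
      (Rl (T c₀) (C ∩ B) p x ∧ ∃ M ∈ T c₀, ¬ M ⊆ B ∧ x ∈ M ∧ Lk (T c₀) K M) ∨
      ∃ A ∈ ins B (T c₀), Lk (T c₀) K A ∧ p ∈ cluster (ins B (T c₀)) A ∧
        x ∈ closure (cluster (ins B (T c₀)) A) := by
    intro p hp
    obtain ⟨A, hA, hl, hpA⟩ := hCm p hp.1
    have hpx : dist p x < d₁ / 3 := (H2 p hp.2).2
    by_cases hAB : A ⊆ B
    swap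
    · obtain ⟨a1, a2⟩ := H1 p (mem_ball.2 (by linarith)) A hA hAB hpA
      exact Or.inl ⟨L2 A hA hl _ _ a2, A, hA, hAB, a1, hl⟩
    have hA' : A ∈ ins B (T c₀) := ⟨hA, hAB⟩
    have hpD : p ∈ cluster (ins B (T c₀)) A := sub_cl .refl hpA
    by_cases hbig : ∃ M, Lk (ins B (T c₀)) A M ∧ η₀ ≤ diam M
    · obtain ⟨M, m1, m2⟩ := hbig
      refine Or.inr ⟨A, hA', hl, hpD, ?_⟩
      rw [cl_eq hA' m1] at hpD ⊢
      exact (H2 p hp.2).1 M ⟨(Lk.mem hA' m1).1, m2⟩ hpD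
    have hsm : ∀ M ∈ ins B (T c₀), Lk (ins B (T c₀)) A M → M ∈ {K' ∈ T c₁ | diam K' < η₀} :=
      fun M hM m1 => ⟨h01 hM.1, not_le.1 fun m2 => hbig ⟨M, m1, m2⟩⟩
    obtain ⟨M, hM, hMB, w, w1, w2⟩ := h2 A hA' hl
    have a1 := hsc A (h01 hA) (hsm A hA' .refl).2 p hpA w (cl_sub hsm w2)
    have a2 := dist_triangle_left w x p
    obtain ⟨a3, a4⟩ := H1 w (mem_ball.2 (by linarith)) M hM hMB w1
    obtain ⟨M', m1, -, m2⟩ := hDC A hA' hl w w2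
    have hlM : Lk (T c₀) K M := m1.tail ⟨hM, w, m2, w1⟩
    exact Or.inl ⟨(L1 A hA' hl p hpD w w2).trans (L2 M hM hlM _ _ a4), M, hM, hMB, a3, hlM⟩
  refine ⟨d, hd, ?_⟩
  by_cases hex : ∃ M ∈ T c₀, ¬ M ⊆ B ∧ x ∈ M ∧ Lk (T c₀) K M
  · obtain ⟨M, hM, hMB, hxM, hlM⟩ := hex
    have all : ∀ p ∈ C ∩ ball x d, Rl (T c₀) (C ∩ B) p x := by
      intro p hp
      rcases tri p hp with a | ⟨A, hA, hl, a1, a2⟩
      · exact a.1
      obtain ⟨w, w1, w2⟩ := (hdj A hA).2 M hM hMB x hxM a2 B hBo hx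
      exact (L1 A hA hl p a1 w w1).trans (L2 M hM hlM _ _ w2.symm)
    exact fun p hp p' hp' => (all p hp).trans (all p' hp').symm
  intro p hp p' hp'
  obtain ⟨A, hA, hl, a1, a2⟩ := (tri p hp).resolve_left fun a => hex a.2
  obtain ⟨A', hA', hl', a1', a2'⟩ := (tri p' hp').resolve_left fun a => hex a.2
  rcases (hdj A hA).1 A' hA' with e | e
  · exact L1 A hA hl p a1 p' (e ▸ a1')
  · exact absurd a2' (Set.disjoint_left.1 e a2)

end LccA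

open LccA in
theorem p_LCC (hDJL : S_DJL) (hLPC : S_LPC) :
    S_LCC := by
  intro V T c₀ c₁ hV hVb h K hK η hη
  have h01 : T c₀ ⊆ T c₁ := h.mono c₀ c₁ le_rfl h.lt.le le_rfl
  have hsub : ∀ K ∈ T c₀, K ⊆ V := fun K hK => h.sub K (h01 hK)
  have hins : {K ∈ T c₀ | K ⊆ V} = T c₀ := sep_eq_self_iff_mem_true.2 hsub
  have hncl : closure (cluster (T c₀) K) ⊆ V := by
    have := h.ncl K hK (hsub K hK)
    rwa [ins, hins] at this
  have hcp : IsCompact (closure (cluster (T c₀) K)) :=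
    (hVb.subset (subset_closure.trans hncl)).isCompact_closure
  have key : ∀ x : closure (cluster (T c₀) K), ∃ d > (0 : ℝ), d ≤ η / 2 ∧
      ∀ p ∈ cluster (T c₀) K ∩ ball x d, ∀ p' ∈ cluster (T c₀) K ∩ ball x d,
        Rl (T c₀) (cluster (T c₀) K ∩ ball x (η / 2)) p p' := by
    rintro ⟨x, hx⟩
    obtain ⟨ε, hε, hb⟩ := Metric.isOpen_iff.1 hV x (hncl hx)
    obtain ⟨q, q1, q2⟩ := exists_ball x (lt_min hε (half_pos hη))
    obtain ⟨d, hd, H⟩ := loc hDJL hLPC h hK q _ rfl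
      (q2.trans ((ball_subset_ball (min_le_left _ _)).trans hb)) q1
    refine ⟨min d (η / 2), lt_min hd (half_pos hη), min_le_right _ _, fun p hp p' hp' => ?_⟩
    obtain ⟨ξ, h1, h2⟩ := H p ⟨hp.1, ball_subset_ball (min_le_left _ _) hp.2⟩ p'
      ⟨hp'.1, ball_subset_ball (min_le_left _ _) hp'.2⟩
    exact ⟨ξ, h1, h2.mono (inter_subset_inter_right _ (inter_subset_inter_right _
      (q2.trans (ball_subset_ball (min_le_right _ _)))))⟩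
  choose d hd hdη H using key
  obtain ⟨δ, hδ, hL⟩ := lebesgue_number_lemma_of_metric hcp
    (c := fun x : closure (cluster (T c₀) K) => ball (x : ℂ) (d x)) (fun _ => isOpen_ball)
    fun x hx => mem_iUnion.2 ⟨⟨x, hx⟩, mem_ball_self (hd _)⟩
  refine ⟨δ, hδ, fun p hp p' hp' hpp => ?_⟩
  obtain ⟨x, hx⟩ := hL p (subset_closure hp)
  have a1 := hx (mem_ball_self hδ)
  obtain ⟨ξ, h1, h2⟩ := H x p ⟨hp, a1⟩ p' ⟨hp', hx (mem_ball'.2 hpp)⟩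
  refine ⟨ξ, h1, h2.mono fun w hw => ⟨⟨hw.1, hw.2.1⟩, ?_⟩⟩
  have a2 : dist w x < η / 2 := hw.2.2
  have a3 : dist p x < d x := a1
  have a4 := dist_triangle_right w p x
  have a5 := hdη x
  rw [mem_ball]
  linarith

end Pool.Agent.P.MP_d66c6d_pr
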