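import Pool.Agent.P.MP_d66c6d_pr.E.Iface
import Pool.Agent.P.MP_d66c6d_pr.F.Iface

/-! Step LEFT of the carpet project. -/

namespace Pool.Agent.P.MP_d66c6d_pr

open MeasureTheory ProbabilityTheory Set Metric Filter Topology
open scoped ENNReal

namespace LeftA

theorem flip {X : Type*} [MeasurableSpace X] (P Q : Measure X) [IsProbabilityMeasure P]
    [IsProbabilityMeasure Q] {b : Set X} (hb : MeasurableSet b) {e : ℝ≥0∞}
    (h : Q bᶜ ≤ P bᶜ + e) : P b ≤ Q b + e := by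
  have h1 : P b + P bᶜ = 1 := by rw [measure_add_measure_compl hb, measure_univ]
  have h2 : Q b + Q bᶜ = 1 := by rw [measure_add_measure_compl hb, measure_univ]
  have h3 : P b + P bᶜ ≤ Q b + e + P bᶜ := by
    calc P b + P bᶜ = Q b + Q bᶜ := by rw [h1, h2]
      _ ≤ Q b + (P bᶜ + e) := by gcongr
      _ = Q b + e + P bᶜ := by ring
  exact (ENNReal.add_le_add_iff_right (measure_ne_top P _)).1 h3

theorem logs {M d a b : ℝ} (hd : 0 < d) (h2 : 2 ≤ M) (hM : Real.exp (2 * Real.log 1600 / d) ≤ M)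
    (h : M ^ (a - 2 - d / 2) / 1600 ≤ M ^ (b - 2)) : a - d ≤ b := by
  have hM0 : 0 < M := by linarith
  have hM1 : 1 < M := by linarith
  have hl : 2 * Real.log 1600 / d ≤ Real.log M := by
    rw [Real.le_log_iff_exp_le hM0]
    exact hM
  have h16 : (1600 : ℝ) ≤ M ^ (d / 2) := by
    rw [Real.le_rpow_iff_log_le (by norm_num) hM0]
    rw [div_le_iff₀ hd] at hl
    linarith
  have h3 : M ^ (a - 2 - d) ≤ M ^ (b - 2) := by
    refine le_trans ?_ h
    rw [le_div_iff₀ (by norm_num)]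
    calc M ^ (a - 2 - d) * 1600 ≤ M ^ (a - 2 - d) * M ^ (d / 2) := by gcongr
      _ = M ^ (a - 2 - d / 2) := by
        rw [← Real.rpow_add hM0]
        congr 1
        ring
  have h4 := (Real.rpow_le_rpow_left_iff hM1).1 h3
  linarith

end LeftA

theorem p_LEFT (hLT : S_LT) (hPEL : S_PEL) (hLOWT : S_LOWT) (hBLM : S_BLM) (hPPA : S_PPA) (hMUK : S_MUK) :
    S_LEFT := by
  intro ν hν Θ hΘ c hc d hd
  obtain ⟨p, hp, hP⟩ := hPEL
  obtain ⟨-, hsf, -, ⟨C, -, hC⟩, -⟩ := hMUK ν hν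
  have hc2 : (c + 1 / 2) / 2 ∈ Ioo (0 : ℝ) (1 / 2) := ⟨by linarith [hc.1], by linarith [hc.2]⟩
  have hp2 : p / 2 ≠ 0 := by
    simp [hp]
  obtain ⟨M, hM, n, hn⟩ := hLT ν hν c (Θ c) ((c + 1 / 2) / 2) (Θ ((c + 1 / 2) / 2)) hc.1
    (by linarith [hc.2]) (by linarith [hc.2]) (hΘ c hc) (hΘ _ hc2) (d / 2) (by positivity)
    (p / 2) hp2 (max 2 (Real.exp (2 * Real.log 1600 / d)))
  have hM2 : 2 ≤ M := le_trans (le_max_left _ _) hM
  have hMe : Real.exp (2 * Real.log 1600 / d) ≤ M := le_trans (le_max_right _ _) hM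
  have hM0 : 0 < M := by linarith
  obtain ⟨hbm, hbl, -⟩ := hBLM n M (M ^ (Θ c - 2 - d / 2)) 0 (1 / 4) (by norm_num)
  set BB : Set KC := inK (ball (0 : ℂ) (4 * (1 / 4))) ∩ bigK ((1 / 4 : ℝ) / (n + 1)) with hBB
  have hBm : MeasurableSet BB :=
    (isOpen_inK isOpen_ball).measurableSet.inter (measurableSet_bigK _)
  have hBf : muK ν BB ≠ ∞ :=
    ne_top_of_le_ne_top ENNReal.ofReal_ne_top (hC 0 _ _ (by norm_num) (by positivity))
  have ht : Tendsto (fun c' : ℝ => ENNReal.ofReal (c - c') * muK ν BB) (𝓝[<] c) (𝓝 0) := by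
    have h1 : Tendsto (fun c' : ℝ => ENNReal.ofReal (c - c')) (𝓝 c) (𝓝 0) := by
      have h2 : Continuous (fun c' : ℝ => ENNReal.ofReal (c - c')) :=
        ENNReal.continuous_ofReal.comp (continuous_const.sub continuous_id)
      simpa using h2.tendsto c
    have h3 := ENNReal.Tendsto.mul_const (h1.mono_left (nhdsWithin_le_nhds (s := Iio c)))
      (Or.inr hBf)
    simpa using h3
  have he : ∀ᶠ c' in 𝓝[<] c, ENNReal.ofReal (c - c') * muK ν BB ≤ p / 2 :=
    ht.eventually (Iic_mem_nhds (pos_iff_ne_zero.2 hp2))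
  filter_upwards [he, Ioo_mem_nhdsLT hc.1] with c' h1 h2
  have hsum : ENNReal.ofReal c' • muK ν + ENNReal.ofReal (c - c') • muK ν =
      ENNReal.ofReal c • muK ν := by
    rw [← add_smul, ← ENNReal.ofReal_add h2.1.le (by linarith [h2.2])]
    congr 2
    ring
  have h5 := (hPPA KC (ENNReal.ofReal c' • muK ν) (ENNReal.ofReal (c - c') • muK ν)).2.2.2.2
    inferInstance inferInstance _ BB hbm.compl hBm (by
      intro S T hT hST hS
      refine hST (hbl S (S ∪ T) ?_ hS)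
      rw [Cfg.pts_union, union_inter_distrib_right, hT.inter_eq, union_empty])
  rw [hsum] at h5
  have h6 := LeftA.flip _ _ hbm h5
  have h7 : PP (ENNReal.ofReal c' • muK ν) (badL n M (M ^ (Θ c - 2 - d / 2)) 0 (1 / 4)) ≤ p := by
    refine h6.trans ?_
    rw [Measure.smul_apply, smul_eq_mul]
    calc _ ≤ p / 2 + p / 2 := add_le_add hn h1
      _ = p := ENNReal.add_halves p
  have hv : 0 < M ^ (Θ c - 2 - d / 2) := Real.rpow_pos_of_pos hM0 _
  have hc' : c' ∈ Ioo (0 : ℝ) (1 / 2) := ⟨h2.1, h2.2.trans hc.2⟩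
  have h8 := hLOWT ν hν c' (Θ c') c (Θ c) h2.1 h2.2 (by linarith [hc.2]) (hΘ c' hc') (hΘ c hc)
    M _ hM0 (by positivity)
    (hP ν hν _ ENNReal.ofReal_ne_top n M _ (by linarith) hv.le h7)
  exact LeftA.logs hd hM2 hMe h8

end Pool.Agent.P.MP_d66c6d_pr
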