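import Pool.Agent.P.MP_d66c6d_pr.E.Iface

/-! Step LPC of the carpet project. -/

namespace Pool.Agent.P.MP_d66c6d_pr

open MeasureTheory ProbabilityTheory Set Metric Filter Topology
open scoped ENNReal

namespace LpcA

theorem piece (γ : Br) (a b : unitInterval) :
    JoinedIn (γ '' closedBall b (dist a b)) (γ a) (γ b) := by
  rcases le_total a b with h | h
  · obtain ⟨β, h0, h1, hr⟩ := exists_br_piece γ h
    refine joinedIn_iff_br.2 ⟨β, h0, h1, hr.le.trans (image_mono fun c hc => ?_)⟩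
    have c1 : (a : ℝ) ≤ c := hc.1
    have c2 : (c : ℝ) ≤ b := hc.2
    rw [mem_closedBall, Subtype.dist_eq, Subtype.dist_eq, Real.dist_eq, Real.dist_eq,
      abs_of_nonpos (by linarith), abs_of_nonpos (by linarith)]
    linarith
  · obtain ⟨β, h0, h1, hr⟩ := exists_br_piece γ h
    refine (joinedIn_iff_br.2 ⟨β, h0, h1, hr.le.trans (image_mono fun c hc => ?_)⟩).symm
    have c1 : (b : ℝ) ≤ c := hc.1
    have c2 : (c : ℝ) ≤ a := hc.2
    rw [mem_closedBall, Subtype.dist_eq, Subtype.dist_eq, Real.dist_eq, Real.dist_eq,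
      abs_of_nonneg (by linarith), abs_of_nonneg (by linarith)]
    linarith

theorem loc (γ : Br) {η : ℝ} (hη : 0 < η) : ∃ η' > (0 : ℝ), ∀ x ∈ range γ, ∀ p ∈ range γ,
    dist p x < η' → JoinedIn (range γ ∩ ball x η) p x := by
  obtain ⟨δ, hδ, hu⟩ := Metric.uniformContinuous_iff.1
    (CompactSpace.uniformContinuous_of_continuous γ.continuous) (η / 2) (half_pos hη)
  have hO : IsOpen (⋃ q ∈ {q : unitInterval × unitInterval | γ q.1 = γ q.2},
      ball q.1 δ ×ˢ ball q.2 δ) :=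
    isOpen_biUnion fun q _ => isOpen_ball.prod isOpen_ball
  obtain ⟨η', h0, h1⟩ := hO.isClosed_compl.isCompact.exists_forall_le'
    (f := fun q : unitInterval × unitInterval => dist (γ q.1) (γ q.2)) (a := 0)
    (Continuous.continuousOn (by fun_prop)) fun q hq => dist_pos.2 fun h =>
      hq (mem_biUnion (x := q) h ⟨mem_ball_self hδ, mem_ball_self hδ⟩)
  refine ⟨η', h0, ?_⟩
  rintro _ ⟨s, rfl⟩ _ ⟨t, rfl⟩ hd
  have h2 : (t, s) ∈ ⋃ q ∈ {q : unitInterval × unitInterval | γ q.1 = γ q.2},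
      ball q.1 δ ×ˢ ball q.2 δ := by
    by_contra hn
    exact absurd (h1 (t, s) hn) (not_le.2 hd)
  obtain ⟨⟨v, u⟩, hvu, ht, hs⟩ := mem_iUnion₂.1 h2
  have e : γ v = γ u := hvu
  have ht' : dist t v < δ := ht
  have hs' : dist u s < δ := by
    rw [dist_comm]
    exact hs
  refine ((piece γ t v).mono ?_).trans (e ▸ (piece γ u s).mono ?_)
  · rintro _ ⟨c, hc, rfl⟩
    refine ⟨mem_range_self c, ?_⟩
    have a1 := hu ((mem_closedBall.1 hc).trans_lt ht')
    have a2 := hu hs'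
    rw [e] at a1
    rw [mem_ball]
    linarith [dist_triangle (γ c) (γ u) (γ s)]
  · rintro _ ⟨c, hc, rfl⟩
    refine ⟨mem_range_self c, ?_⟩
    have a1 := hu ((mem_closedBall.1 hc).trans_lt hs')
    rw [mem_ball]
    linarith

theorem chain {T : Set (Set ℂ)} (hT : Tame T) {A B : Set ℂ} (hA : A ∈ T) {p : ℂ} (hp : p ∈ A)
    (h : Lk T A B) : ∀ y ∈ B, ∃ ξ > (0 : ℝ), JoinedIn (TT ξ T ∩ cluster T A) p y := by
  have one : ∀ C, Lk T A C → ∀ x ∈ C, ∀ y ∈ C, ∀ ξ ≤ diam C,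
      JoinedIn (TT ξ T ∩ cluster T A) x y := fun C hC x hx y hy ξ hξ =>
    ((hT.1 C (Lk.mem hA hC)).2.1.joinedIn x hx y hy).mono fun z hz =>
      ⟨mem_TT.2 ⟨C, Lk.mem hA hC, hξ, hz⟩, C, hC, hz⟩
  induction h with
  | refl => exact fun y hy => ⟨_, (hT.1 A hA).2.2, one A .refl p hp y hy _ le_rfl⟩
  | @tail B C h1 h2 ih =>
    intro y hy
    obtain ⟨w, w1, w2⟩ := h2.2
    obtain ⟨ξ, hξ, hj⟩ := ih w w1
    exact ⟨min ξ (diam C), lt_min hξ (hT.1 C h2.1).2.2,
      (hj.mono (inter_subset_inter_left _ (TT_mono (min_le_left _ _) Subset.rfl))).trans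
        (one C (h1.tail h2) w w2 y hy _ (min_le_right _ _))⟩

end LpcA

theorem p_LPC :
    S_LPC := by
  refine ⟨fun X Γ h hΓ hc η hη x hx y hy => ?_, fun γ η hη => LpcA.loc γ hη, ?_⟩
  · obtain ⟨s, hs, hj⟩ := h η hη
    refine hc.induction₂ (fun a b => JoinedIn (X ∩ thickening η Γ) a b) (fun a ha => ?_)
      (fun _ _ _ _ _ _ h1 h2 => h1.trans h2) (fun _ _ _ _ h1 => h1.symm) hx hy
    filter_upwards [self_mem_nhdsWithin, mem_nhdsWithin_of_mem_nhds (ball_mem_nhds a hs)]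
      with b hb hb'
    exact (hj a (hΓ ha) b (hΓ hb) (mem_ball'.1 hb')).mono
      (inter_subset_inter_right _ (ball_subset_thickening ha η))
  · rintro T hT A hA p ⟨B, hB, hp⟩ p' ⟨B', hB', hp'⟩
    obtain ⟨p0, hp0⟩ := (hT.1 A hA).2.1.nonempty
    obtain ⟨ξ, hξ, h1⟩ := LpcA.chain hT hA hp0 hB p hp
    obtain ⟨ξ', hξ', h2⟩ := LpcA.chain hT hA hp0 hB' p' hp'
    exact ⟨min ξ ξ', lt_min hξ hξ',
      (h1.symm.mono (inter_subset_inter_left _ (TT_mono (min_le_left _ _) Subset.rfl))).trans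
        (h2.mono (inter_subset_inter_left _ (TT_mono (min_le_right _ _) Subset.rfl)))⟩

end Pool.Agent.P.MP_d66c6d_pr
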