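import Pool.Agent.P.MP_d66c6d_pr.E.Iface
import Pool.Agent.P.MP_d66c6d_pr.A.Iface

/-! Step LTD of the carpet project. -/

namespace Pool.Agent.P.MP_d66c6d_pr

open MeasureTheory ProbabilityTheory Set Metric Filter Topology
open scoped ENNReal

namespace LtdA

variable {V : Set ℂ} {f g : ℂ → ℂ}

theorem image_TT (h : Conf V f g) {T T' : Set (Set ℂ)} (hT : Tame T)
    (hK : ∀ K ∈ T, K ⊆ V ∧ f '' K ∈ T') {ξ : ℝ} (hξ : 0 < ξ) :
    ∃ ξ' > (0 : ℝ), f '' TT ξ T ⊆ TT ξ' (ins (ball 0 1) T') := by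
  have hb : ∀ K ∈ T, f '' K ⊆ ball 0 1 := fun K hK' =>
    image_subset_iff.2 fun z hz => h.mapsf ((hK K hK').1 hz)
  have h1 : ∀ᶠ ξ' in 𝓝[>] (0 : ℝ), ∀ K ∈ {K ∈ T | ξ ≤ diam K}, ξ' ≤ diam (f '' K) := by
    refine (eventually_all_finite (hT.2 ξ hξ)).2 fun K hK' => nhdsWithin_le_nhds ?_
    refine Iic_mem_nhds (diam_pos ?_ (isBounded_ball.subset (hb K hK'.1)))
    refine Set.Nontrivial.image_of_injOn ?_ (h.inj.mono (hK K hK'.1).1)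
    by_contra hn
    exact (hT.1 K hK'.1).2.2.ne' (diam_subsingleton (not_nontrivial_iff.1 hn))
  obtain ⟨ξ', h2, h3⟩ := (h1.and self_mem_nhdsWithin).exists
  refine ⟨ξ', h3, ?_⟩
  rintro _ ⟨z, hz, rfl⟩
  obtain ⟨K, hK1, hK2, hK3⟩ := mem_TT.1 hz
  exact mem_TT.2 ⟨f '' K, ⟨(hK K hK1).2, hb K hK1⟩, h2 K ⟨hK1, hK2⟩, mem_image_of_mem f hK3⟩

theorem mem_Fr (h : Conf V f g)
    (hf : ∀ A ⊆ V, IsCompact A → f '' interior (fill A) ⊆ interior (fill (f '' A)))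
    {T T' : Set (Set ℂ)} (hT : Tame T) (hK : ∀ K ∈ T, K ⊆ V ∧ f '' K ∈ T') {w : ℂ}
    (hw : w ∈ ball (0 : ℂ) 1) (hw' : w ∈ Fr (ins (ball 0 1) T')) : g w ∈ Fr T := by
  intro ξ hξ hin
  obtain ⟨ξ', h1, h2⟩ := image_TT h hT hK hξ
  have hc := hT.isCompact_TT hξ
  rw [hc.isClosed.closure_eq] at hin
  have h3 := hf _ (fun z hz => by
    obtain ⟨K, hK1, -, hK3⟩ := mem_TT.1 hz
    exact (hK K hK1).1 hK3) hc (mem_image_of_mem f hin)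
  rw [h.right w hw] at h3
  exact hw' ξ' h1 (interior_mono (fill_mono (h2.trans subset_closure)) h3)

theorem cov_image {Λ ε t : ℝ} {Γ : Set ℂ} (hΛ : 0 < Λ)
    (hL : ∀ x ∈ closedBall (0 : ℂ) (3 / 4), ∀ y ∈ closedBall (0 : ℂ) (3 / 4),
      dist (g x) (g y) ≤ Λ * dist x y) (hΓ : Γ ⊆ closedBall 0 (1 / 2)) (hε : ε ≤ 1 / 4)
    (h : Cov ε t Γ) : Cov (Λ * ε) t (g '' Γ) := by
  classical
  obtain ⟨Z, h1, h2⟩ := h
  refine ⟨Z.image g, le_trans (by exact_mod_cast Finset.card_image_le) h1, ?_⟩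
  rintro _ ⟨x, hx, rfl⟩
  obtain ⟨z, hz, hxz⟩ := mem_iUnion₂.1 (h2 hx)
  have hx' := mem_closedBall.1 (hΓ hx)
  have hxz' := mem_ball.1 hxz
  have hz' : dist z 0 ≤ 3 / 4 := by
    have := dist_triangle_left z 0 x
    linarith
  refine mem_iUnion₂.2 ⟨g z, Finset.mem_image_of_mem g hz, mem_ball.2 ?_⟩
  exact (hL x (mem_closedBall.2 (by linarith)) z hz').trans_lt (mul_lt_mul_of_pos_left hxz' hΛ)

end LtdA

theorem p_LTD (hBLI : S_BLI) (hFIMG : S_FIMG) (hLPC : S_LPC) (hCOV : S_COV) (hEXP : S_EXP) :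
    S_LTD := by
  intro V f g hc hV
  obtain ⟨hf, -, Λ, ρ, hΛ, hρ, hL, hsep⟩ := hFIMG V f g hc
  refine ⟨Λ, hΛ, fun T S X a e θ δ hT hK hX ha hU hXL he he0 hδ => ?_⟩
  obtain ⟨C, hC, ε₀, hε₀, hE⟩ := hEXP a θ ha (δ / 2) (half_pos hδ)
  obtain ⟨τ, hτ, j₀, hj₀⟩ := hXL ρ hρ
  have hloc : ∀ r > (0 : ℝ), ∃ s > (0 : ℝ), ∀ x ∈ X, ∀ y ∈ X, dist x y < s →
      JoinedIn (X ∩ ball x r) x y := fun r hr => by
    obtain ⟨s, hs, C', j, hj⟩ := hU r hr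
    refine ⟨s, hs, fun x hx y hy hd => ?_⟩
    obtain ⟨γ, h0, h1, h2, -⟩ := hj j le_rfl x hx y hy hd
    exact joinedIn_iff_br.2 ⟨γ, h0, h1, h2⟩
  have hlim : Tendsto (fun j => 208 * Λ ^ (θ - δ) * C * e j ^ (δ / 2)) atTop (𝓝 0) := by
    have h1 := (Real.continuousAt_rpow_const 0 (δ / 2) (Or.inr (half_pos hδ).le)).tendsto.comp he0
    rw [Real.zero_rpow (half_pos hδ).ne'] at h1
    simpa using h1.const_mul (208 * Λ ^ (θ - δ) * C)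
  filter_upwards [eventually_ge_atTop j₀, he0.eventually (gt_mem_nhds hε₀),
    he0.eventually (gt_mem_nhds hΛ), hlim.eventually (gt_mem_nhds hτ)] with j hj h1 h2 h3
  have hej := he j
  by_contra hcon
  push Not at hcon
  obtain ⟨Γ, ⟨-, hΓc, hΓb, ⟨x, hx, hx'⟩, hΓo, hvol⟩, hFr⟩ :=
    hBLI _ _ 0 (1 / 4) S (by norm_num) hcon
  rw [show (4 : ℝ) * (1 / 4) = 1 by norm_num] at hFr
  rw [show (2 : ℝ) * (1 / 4) = 1 / 2 by norm_num] at hΓb hΓo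
  have hΓ1 : Γ ⊆ ball 0 1 := hΓb.trans (closedBall_subset_ball (by norm_num))
  have hgX : g '' Γ ⊆ X := by
    rintro _ ⟨w, hw, rfl⟩
    exact hX ⟨LtdA.mem_Fr hc (hf hV) hT hK (hΓ1 hw) (hFr hw), hc.mapsg (hΓ1 hw)⟩
  have hM : 0 < Λ / e j := div_pos hΛ hej
  have hε : 1 / 4 / (Λ / e j) = e j / (4 * Λ) := by field_simp
  have ht : (Λ / e j) ^ (θ - 2 - δ) * (1 / 4) ^ 2 =
      (Λ / e j) ^ (θ - δ) * (e j / (4 * Λ)) ^ 2 := by
    rw [show θ - 2 - δ = θ - δ - 2 by ring, Real.rpow_sub hM, Real.rpow_two]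
    field_simp
  rw [hε, ht] at hvol
  have hcov := (hCOV _ _ Γ (by positivity)).2.1 (by positivity) hvol
  have hcov' := LtdA.cov_image hΛ hL hΓb
    (by rw [div_le_iff₀ (by positivity)]; linarith) hcov
  have hcov2 := (hCOV (e j) _ (g '' Γ) hej).2.2.2.1 1 zero_le_one
    (hcov'.mono (by rw [show Λ * (e j / (4 * Λ)) = e j / 4 by field_simp]; linarith) le_rfl
      subset_rfl)
  obtain ⟨y, hy, hy'⟩ := not_subset.1 hΓo
  have hys : y ∈ sphere (0 : ℂ) (1 / 2) :=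
    mem_sphere.2 (le_antisymm (mem_closedBall.1 (hΓb hy)) (not_lt.1 hy'))
  obtain ⟨γ, h0, h1', hγ⟩ := joinedIn_iff_br.1 (hLPC.1 X (g '' Γ) hloc hgX
    (hΓc.image g (hc.cg.mono hΓ1)) (e j) hej _ (mem_image_of_mem g hx) _ (mem_image_of_mem g hy))
  refine hj₀ j hj γ (hγ.trans inter_subset_left) (by rw [h0, h1']; exact hsep x hx' y hys)
    (hcov2.mono le_rfl ?_ ((hγ.trans inter_subset_right).trans ?_))
  · have h4 := (hE (e j) ⟨hej, h1⟩).1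
    have h5 : (Λ / e j) ^ (θ - δ) = Λ ^ (θ - δ) * e j ^ (δ / 2) * e j ^ (-(θ - δ / 2)) := by
      rw [Real.div_rpow hΛ.le hej.le, mul_assoc, ← Real.rpow_add hej, div_eq_mul_inv,
        ← Real.rpow_neg hej.le]
      congr 2
      ring
    have h6 := ha.1 _ hej
    calc 26 * (1 + 1) ^ 2 * (2 * (Λ / e j) ^ (θ - δ))
        = 208 * Λ ^ (θ - δ) * e j ^ (δ / 2) * e j ^ (-(θ - δ / 2)) := by rw [h5]; ring
      _ ≤ 208 * Λ ^ (θ - δ) * e j ^ (δ / 2) * (C * a (e j)) :=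
        mul_le_mul_of_nonneg_left h4 (by positivity)
      _ = 208 * Λ ^ (θ - δ) * C * e j ^ (δ / 2) * a (e j) := by ring
      _ ≤ τ * a (e j) := mul_le_mul_of_nonneg_right h3.le h6.le
  · rw [one_mul]
    exact thickening_subset_cthickening _ _

end Pool.Agent.P.MP_d66c6d_pr
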