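import Pool.Agent.P.MP_d66c6d_pr.E.Iface
import Pool.Agent.P.MP_d66c6d_pr.T.Iface

/-! Step NET of the carpet project. -/

namespace Pool.Agent.P.MP_d66c6d_pr

open MeasureTheory ProbabilityTheory Set Metric Filter Topology
open scoped ENNReal

namespace NetA

lemma re_pos {a b : ℂ} (hb : b ≠ 0) (h : ‖a - b‖ ≤ ‖b‖ / 2) : 0 < (a / b).re := by
  have hb' : 0 < ‖b‖ := norm_pos_iff.2 hb
  have h1 : ‖a / b - 1‖ ≤ 1 / 2 := by
    rw [div_sub_one hb, norm_div, div_le_iff₀ hb']
    linarith
  have h2 := (Complex.abs_re_le_norm (a / b - 1)).trans h1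
  rw [Complex.sub_re, Complex.one_re] at h2
  linarith [(abs_le.1 h2).1]

lemma log_mul {x y : ℂ} (hx : 0 < x.re) (hy : 0 < y.re) :
    Complex.log (x * y) = Complex.log x + Complex.log y := by
  have hx0 : x ≠ 0 := fun h => by simp [h] at hx
  have hy0 : y ≠ 0 := fun h => by simp [h] at hy
  have h1 := abs_lt.1 (Complex.abs_arg_lt_pi_div_two_iff.2 (Or.inl hx))
  have h2 := abs_lt.1 (Complex.abs_arg_lt_pi_div_two_iff.2 (Or.inl hy))
  exact (Complex.log_mul_eq_add_log_iff hx0 hy0).2 ⟨by linarith [h1.1, h2.1], by linarith [h1.2, h2.2]⟩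

lemma cont {F : ℂ → ℂ} {S : Set ℂ} {b c : ℂ} (hF : ContinuousOn F S)
    (h : ∀ u ∈ S, 0 < (F u / b).re) :
    ContinuousOn (fun u => c + Complex.log (F u / b)) S :=
  continuousOn_const.add ((hF.div_const b).clog fun u hu => Or.inl (h u hu))

end NetA

theorem p_NET (hLOGA : S_LOGA) :
    S_NET := by
  classical
  intro E A P F r η hrη hPA hFE hcov hclose hconn hlog
  obtain ⟨L, hL, hLF⟩ := hlog
  have h4 := hLOGA.2.2.2.1
  have hne : ∀ p ∈ P, F p ≠ 0 := fun p hp => by
    rw [← hLF p (hPA hp)]; exact Complex.exp_ne_zero _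
  have hre : ∀ p ∈ P, ∀ u ∈ ball p η, 0 < (F u / F p).re := fun p hp u hu =>
    NetA.re_pos (hne p hp) (hclose p hp u hu)
  have hFA : ContinuousOn F A := (Complex.continuous_exp.comp_continuousOn hL).congr
    fun z hz => (hLF z hz).symm
  have hexp : ∀ p ∈ P, ∀ u ∈ ball p η,
      Complex.exp (L p + Complex.log (F u / F p)) = F u := fun p hp u hu => by
    have h0 : F u / F p ≠ 0 := fun h => by simpa [h] using hre p hp u hu
    rw [Complex.exp_add, Complex.exp_log h0, hLF p (hPA hp), mul_div_cancel₀ _ (hne p hp)]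
  have key : ∀ p ∈ P, ∀ p' ∈ P, ∀ w, w ∈ ball p r → w ∈ ball p' r →
      L p + Complex.log (F w / F p) = L p' + Complex.log (F w / F p') := by
    intro p hp p' hp' w hw hw'
    have hd : dist p p' < 2 * r := by
      have := dist_triangle_left p p' w
      rw [mem_ball] at hw hw'
      linarith
    obtain ⟨Z, hZ, hZc, hpZ, hpZ'⟩ := hconn p hp p' hp' hd
    have h5 := h4 Z L (fun u => L p + Complex.log (F u / F p)) hZc
      (hL.mono fun z hz => (hZ hz).1)
      (NetA.cont (hFA.mono fun z hz => (hZ hz).1) fun u hu => hre p hp u (hZ hu).2)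
      (fun z hz => by rw [hexp p hp z (hZ hz).2, hLF z (hZ hz).1]) p hpZ p' hpZ'
    simp only [div_self (hne p hp), Complex.log_one, add_zero, sub_self] at h5
    have h6 : F w / F p = F p' / F p * (F w / F p') := by
      have := hne p hp
      have := hne p' hp'
      field_simp
    rw [h6, NetA.log_mul (hre p hp p' (hZ hpZ').2) (hre p' hp' w (ball_subset_ball hrη hw'))]
    linear_combination h5
  have hch : ∀ w ∈ E, ∃ p ∈ P, w ∈ ball p r := fun w hw => by
    simpa only [mem_iUnion, exists_prop] using hcov hw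
  choose! q hqP hq using hch
  refine ⟨fun w => L (q w) + Complex.log (F w / F (q w)), ?_, fun w hw =>
    hexp _ (hqP w hw) w (ball_subset_ball hrη (hq w hw))⟩
  refine continuousOn_of_locally_continuousOn fun w hw =>
    ⟨ball (q w) r, isOpen_ball, hq w hw, ?_⟩
  refine (NetA.cont (c := L (q w)) (hFE.mono inter_subset_left) fun u hu =>
    hre _ (hqP w hw) u (ball_subset_ball hrη hu.2)).congr fun u hu => ?_
  exact key _ (hqP u hu.1) _ (hqP w hw) u (hq u hu.1) hu.2

end Pool.Agent.P.MP_d66c6d_pr
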