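import Pool.Agent.P.MP_d66c6d_pr.E.Iface
import Pool.Agent.P.MP_d66c6d_pr.S.Iface
import Pool.Agent.P.MP_d66c6d_pr.F.Iface

/-! Step PEL of the carpet project. -/

namespace Pool.Agent.P.MP_d66c6d_pr

open MeasureTheory ProbabilityTheory Set Metric Filter Topology
open scoped ENNReal

theorem p_PEL (hPEIA : S_PEIA) (hGAIN : S_GAIN) (hBLM : S_BLM) (hBLC : S_BLC) (hBUMP : S_BUMP) (hMUK : S_MUK) :
    S_PEL := by
  obtain ⟨p, hp, hP⟩ := hPEIA 4
  refine ⟨p, hp, fun ν hν α hα n M v hM hv hb z ρ hρ =>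
    ENNReal.tendsto_nhds_zero.2 fun ζ hζ => ?_⟩
  have := (hMUK ν hν).2.1
  obtain ⟨ε₀, hε₀, hQ⟩ := hP z ρ hρ ζ hζ.ne'
  filter_upwards [Ioo_mem_nhdsGT (lt_min hε₀ (by positivity : 0 < ρ / 8))] with ε hε
  obtain ⟨hε, hε'⟩ := hε
  rw [lt_min_iff] at hε'
  have hres : ∀ c (S : Cfg KC), S.res (inK (ball (gp ε c) ((4 : ℕ) * ε))) ∈
      badL n M v (gp ε c) ε ↔ S ∈ badL n M v (gp ε c) ε := fun c S => by
    rw [Nat.cast_ofNat]
    have h1 : (S.res (inK (ball (gp ε c) (4 * ε)))).pts ∩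
        (inK (ball (gp ε c) (4 * ε)) ∩ bigK (ε / (n + 1))) =
        S.pts ∩ (inK (ball (gp ε c) (4 * ε)) ∩ bigK (ε / (n + 1))) := by
      rw [Cfg.pts_res, inter_assoc, ← inter_assoc (inK _), inter_self]
    exact ⟨(hBLM n M v _ ε hε).2.1 _ _ h1, (hBLM n M v _ ε hε).2.1 _ _ h1.symm⟩
  refine le_trans (measure_mono fun S hS => ?_) (hQ ε ⟨hε, hε'.1⟩ (α • muK ν) inferInstance
    (fun c => badL n M v (gp ε c) ε) (fun c => (hBLM n M v _ ε hε).1) fun c => ?_)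
  · by_contra hn
    simp only [mem_ofPred_eq, not_exists, not_and, not_le, hres] at hn
    refine hS (hGAIN _ z ρ ε M v (fun c => S ∈ badL n M v (gp ε c) ε) hε (by linarith) hM hv hn
      fun c hc Γ hX hΓ h1 h2 => ?_)
    obtain ⟨x, x1, x2⟩ := h1
    obtain ⟨Γ', g1, g2, g3, g4, g5⟩ := hBUMP Γ (gp ε c) x (2 * ε) hΓ.1 hΓ.2.1 x1
      (closedBall_subset_closedBall (by linarith) x2) h2
    have hsub : ball (gp ε c) (4 * ε) ⊆ ball z (2 * ρ) := fun w hw => by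
      have x3 := hΓ.2.2.1 x1
      rw [mem_closedBall] at x2 x3
      rw [mem_ball] at hw ⊢
      linarith [dist_triangle w (gp ε c) z, dist_triangle_left (gp ε c) z x, hε'.2]
    have hs : 0 < ε / (n + 1) := by positivity
    have hlt : ENNReal.ofReal (v * ε ^ 2) < volume (thickening (ε / M) Γ') := by
      by_contra hle
      refine hc ⟨Γ', ⟨g2, g3, fun y hy => (g1 hy).2, ⟨x, g4, x2⟩, g5, not_lt.mp hle⟩,
        fun y hy hy' => ?_⟩
      exact Fr_anti (ins_mono hsub subset_rfl) (hX (g1 hy).1) _ hs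
        (mem_interior_iff_mem_nhds.2 (mem_of_superset (closedBall_mem_nhds y hs) hy'))
    refine hlt.le.trans (measure_mono fun w hw => ⟨thickening_subset_of_subset _
      (fun y hy => (g1 hy).1) hw, ?_⟩)
    obtain ⟨y, hy, hwy⟩ := mem_thickening_iff.1 hw
    have y1 := mem_closedBall.1 (g1 hy).2
    have y2 : ε / M ≤ ε := div_le_self hε.le hM
    rw [mem_ball]
    linarith [dist_triangle w y (gp ε c)]
  · simp only [hres, ofPred_mem_eq]
    rw [hBLC.2 ν hν α hα n M v _ ε hε (by linarith)]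
    exact hb

end Pool.Agent.P.MP_d66c6d_pr
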